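import Pool.Agent.N321.KT.Defs

/-!
# Project KT, leaf N3: three coordinates, order 6 (certificates for the four sign choices).
-/

set_option autoImplicit false
set_option linter.unusedSimpArgs false

namespace Pool.Agent.N768.KT.N3

open Pool.Agent.N321.KT

/-! ### Jets -/

theorem sym_D {ι : Type} {v : Jet ι ℝ} (h : Sym v) (i : ι) : Sym (D i v) :=
  fun _ _ hw => h _ _ (hw.cons i)

theorem mul_const {ι : Type} (w : List ι) : ∀ (u v : Jet ι ℝ), (∀ w, w ≠ [] → u w = 0) →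
    mul u v w = u [] * v w := by
  induction w with
  | nil => intro u v _; rfl
  | cons i w ih =>
    intro u v hu
    have h1 := ih (D i u) v (fun w _ => hu (i :: w) (List.cons_ne_nil _ _))
    have h2 := ih u (D i v) hu
    have h3 : D i u [] = 0 := hu [i] (List.cons_ne_nil _ _)
    simp only [mul, h1, h2, h3, zero_mul, zero_add]
    rfl

theorem mul_lin {ι : Type} [Fintype ι] [DecidableEq ι] (u : Jet ι ℝ)
    (hu : ∀ w : List ι, 2 ≤ w.length → u w = 0) (w : List ι) : ∀ v : Jet ι ℝ, Sym v →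
    mul u v w = u [] * v w + ∑ q, (w.count q : ℝ) * u [q] * v (w.erase q) := by
  induction w with
  | nil => intro v _; simp [mul]
  | cons i w ih =>
    intro v hv
    have h1 := mul_const w (D i u) v (fun w hw => hu (i :: w) (by
      have := List.length_pos_iff.mpr hw
      simp only [List.length_cons]; omega))
    have h2 := ih (D i v) (sym_D hv i)
    have key : ∀ q, ((i :: w).count q : ℝ) * u [q] * v ((i :: w).erase q) =
        (w.count q : ℝ) * u [q] * D i v (w.erase q) + (if q = i then u [q] * v w else 0) := by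
      intro q
      by_cases hq : q = i
      · subst hq
        rw [List.count_cons_self, List.erase_cons_head, if_pos rfl]
        by_cases hc : q ∈ w
        · have h3 : D q v (w.erase q) = v w := hv _ _ (List.perm_cons_erase hc).symm
          rw [h3]; push_cast; ring
        · rw [List.count_eq_zero_of_not_mem hc]; push_cast; ring
      · have h4 : (i :: w).count q = w.count q := by
          rw [List.count_cons_of_ne (fun h => hq h.symm)]
        have h5 : (i :: w).erase q = i :: w.erase q := by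
          rw [List.erase_cons_tail]
          simp only [beq_iff_eq]
          exact fun h => hq h.symm
        rw [h4, h5, if_neg hq, add_zero]
        rfl
    simp only [mul]
    rw [h1, h2, Finset.sum_congr rfl (fun q _ => key q), Finset.sum_add_distrib,
      Finset.sum_ite_eq' Finset.univ i]
    simp only [Finset.mem_univ, if_true]
    have h6 : D i v w = v (i :: w) := rfl
    have h7 : D i u [] = u [i] := rfl
    rw [h6, h7]
    ring

theorem th_eq {ι : Type} [Fintype ι] [DecidableEq ι] (d : ι → ℝ) (l : ι → ι → ι → ℝ)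
    {v : Jet ι ℝ} (hv : Sym v) (j : ι) (w : List ι) :
    th (Kjet d l) v j w = d j * v (j :: w) +
      ∑ s, ∑ q, (w.count q : ℝ) * l s j q * v (s :: w.erase q) := by
  have h : ∀ s, mul (Kjet d l s j) (D s v) w = (if s = j then d s else 0) * v (s :: w) +
      ∑ q, (w.count q : ℝ) * l s j q * v (s :: w.erase q) := by
    intro s
    refine mul_lin _ (fun w hw => ?_) w _ (sym_D hv s)
    match w, hw with
    | _ :: _ :: _, _ => rfl
  unfold th
  rw [Finset.sum_congr rfl (fun s _ => h s), Finset.sum_add_distrib]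
  congr 1
  simp only [ite_mul, zero_mul]
  rw [Finset.sum_ite_eq' Finset.univ j]
  simp

/-- Sorted words. -/
def wd (a b c : ℕ) : List (Fin 3) :=
  List.replicate a 0 ++ (List.replicate b 1 ++ List.replicate c 2)

theorem count_wd0 (a b c : ℕ) : (wd a b c).count 0 = a := by
  simp [wd, List.count_append, List.count_replicate]

theorem count_wd1 (a b c : ℕ) : (wd a b c).count 1 = b := by
  simp [wd, List.count_append, List.count_replicate]

theorem count_wd2 (a b c : ℕ) : (wd a b c).count 2 = c := by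
  simp [wd, List.count_append, List.count_replicate]

theorem sym_eq {v : Jet (Fin 3) ℝ} (hv : Sym v) (w : List (Fin 3)) (A B C : ℕ)
    (h0 : w.count 0 = A) (h1 : w.count 1 = B) (h2 : w.count 2 = C) : v w = v (wd A B C) := by
  apply hv
  rw [List.perm_iff_count]
  intro a
  match a with
  | 0 => rw [count_wd0, h0]
  | 1 => rw [count_wd1, h1]
  | 2 => rw [count_wd2, h2]


/-- The values of `th` in terms of the counts of the letters. -/
def T0 (q : ℝ) (V : ℕ → ℕ → ℕ → ℝ) (A B C : ℕ) : ℝ := -(q * C * V A (B + 1) (C - 1))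

def T1 (p r : ℝ) (V : ℕ → ℕ → ℕ → ℝ) (A B C : ℕ) : ℝ :=
  V A (B + 1) C - r * C * V (A + 1) B (C - 1) - 2 * r * C * V A (B + 1) (C - 1) +
    p * A * V (A - 1) B (C + 1) + B * V A (B - 1) (C + 1)

def T2 (q r : ℝ) (V : ℕ → ℕ → ℕ → ℝ) (A B C : ℕ) : ℝ :=
  3 * V A B (C + 1) + q * A * V (A - 1) (B + 1) C + r * B * V A B C

/-- The equations. -/
structure Eqs (p q r : ℝ) (V : ℕ → ℕ → ℕ → ℝ) : Prop where
  h01 : ∀ a b c, a + b + c ≤ 4 → T1 p r V (a + 1) b c - T0 q V a (b + 1) c = 0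
  h02 : ∀ a b c, a + b + c ≤ 4 → T2 q r V (a + 1) b c - T0 q V a b (c + 1) = 0
  h12 : ∀ a b c, a + b + c ≤ 4 → T2 q r V a (b + 1) c - T1 p r V a b (c + 1) = 0

/-- The pure values vanish. -/
def Zer (V : ℕ → ℕ → ℕ → ℝ) : Prop :=
  V 1 0 0 = 0 ∧ V 2 0 0 = 0 ∧ V 3 0 0 = 0 ∧ V 4 0 0 = 0 ∧ V 5 0 0 = 0 ∧
  V 0 1 0 = 0 ∧ V 0 2 0 = 0 ∧ V 0 3 0 = 0 ∧ V 0 4 0 = 0 ∧ V 0 5 0 = 0 ∧
  V 0 0 1 = 0 ∧ V 0 0 2 = 0 ∧ V 0 0 3 = 0 ∧ V 0 0 4 = 0 ∧ V 0 0 5 = 0

theorem caseA {V : ℕ → ℕ → ℕ → ℝ} (H : Eqs 1 1 1 V) : Zer V := by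
  have m011 : V 0 1 1 = (-3/2) * V 0 1 0 + (-1/2) * V 1 0 0 := by
    have e := H.h12 0 0 0 (by norm_num)
    simp only [T0, T1, T2, Nat.reduceAdd, Nat.reduceSub] at e
    linear_combination (1/2) * e
  have m101 : V 1 0 1 = (-2/3) * V 0 1 0 := by
    have e := H.h02 0 0 0 (by norm_num)
    simp only [T0, T1, T2, Nat.reduceAdd, Nat.reduceSub] at e
    linear_combination (1/3) * e
  have m110 : V 1 1 0 = (-1) * V 0 0 1 := by
    have e := H.h01 0 0 0 (by norm_num)
    simp only [T0, T1, T2, Nat.reduceAdd, Nat.reduceSub] at e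
    linear_combination 1 * e
  have m012 : V 0 1 2 = (53/12) * V 0 1 0 + (5/4) * V 1 0 0 := by
    have e := H.h12 0 0 1 (by norm_num)
    simp only [T0, T1, T2, Nat.reduceAdd, Nat.reduceSub] at e
    linear_combination (1/2) * e + (-5/2) * m011 + (-1) * m101
  have m021 : V 0 2 1 = (1/2) * V 0 0 1 + (1/2) * V 0 0 2 + (-2) * V 0 2 0 := by
    have e := H.h12 0 1 0 (by norm_num)
    simp only [T0, T1, T2, Nat.reduceAdd, Nat.reduceSub] at e
    linear_combination (1/2) * e + (-1/2) * m110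
  have m102 : V 1 0 2 = (3/2) * V 0 1 0 + (1/2) * V 1 0 0 := by
    have e := H.h02 0 0 1 (by norm_num)
    simp only [T0, T1, T2, Nat.reduceAdd, Nat.reduceSub] at e
    linear_combination (1/3) * e + (-1) * m011
  have m111 : V 1 1 1 = (-2) * V 0 0 1 + (-1) * V 0 0 2 + (-1) * V 0 2 0 + 1 * V 2 0 0 := by
    have e := H.h01 0 0 1 (by norm_num)
    simp only [T0, T1, T2, Nat.reduceAdd, Nat.reduceSub] at e
    linear_combination 1 * e + 2 * m110
  have m120 : V 1 2 0 = (13/6) * V 0 1 0 + (1/2) * V 1 0 0 := by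
    have e := H.h01 0 1 0 (by norm_num)
    simp only [T0, T1, T2, Nat.reduceAdd, Nat.reduceSub] at e
    linear_combination 1 * e + (-1) * m011 + (-1) * m101
  have m201 : V 2 0 1 = 1 * V 0 0 1 := by
    have e := H.h02 1 0 0 (by norm_num)
    simp only [T0, T1, T2, Nat.reduceAdd, Nat.reduceSub] at e
    linear_combination (1/3) * e + (-1) * m110
  have m210 : V 2 1 0 = (4/3) * V 0 1 0 := by
    have e := H.h01 1 0 0 (by norm_num)
    simp only [T0, T1, T2, Nat.reduceAdd, Nat.reduceSub] at e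
    linear_combination 1 * e + (-2) * m101
  have m013 : V 0 1 3 = (-425/24) * V 0 1 0 + (-41/8) * V 1 0 0 := by
    have e := H.h12 0 0 2 (by norm_num)
    simp only [T0, T1, T2, Nat.reduceAdd, Nat.reduceSub] at e
    linear_combination (1/2) * e + (-7/2) * m012 + (-3/2) * m102
  have m022 : V 0 2 2 = (1/2) * V 0 0 1 + (-1/2) * V 0 0 2 + 7 * V 0 2 0 + (-1) * V 2 0 0 + (1/2) * V 0 0 3 := by
    have e := H.h12 0 1 1 (by norm_num)
    simp only [T0, T1, T2, Nat.reduceAdd, Nat.reduceSub] at e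
    linear_combination (1/2) * e + (-3) * m021 + (-1) * m111
  have m031 : V 0 3 1 = (10/3) * V 0 1 0 + 1 * V 1 0 0 + (-5/2) * V 0 3 0 := by
    have e := H.h12 0 2 0 (by norm_num)
    simp only [T0, T1, T2, Nat.reduceAdd, Nat.reduceSub] at e
    linear_combination (1/2) * e + 1 * m012 + (-1/2) * m120
  have m103 : V 1 0 3 = (-53/9) * V 0 1 0 + (-5/3) * V 1 0 0 := by
    have e := H.h02 0 0 2 (by norm_num)
    simp only [T0, T1, T2, Nat.reduceAdd, Nat.reduceSub] at e
    linear_combination (1/3) * e + (-4/3) * m012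
  have m112 : V 1 1 2 = (-7) * V 0 0 1 + (-5) * V 0 0 2 + 4 * V 2 0 0 + (-1) * V 0 0 3 := by
    have e := H.h01 0 0 2 (by norm_num)
    simp only [T0, T1, T2, Nat.reduceAdd, Nat.reduceSub] at e
    linear_combination 1 * e + (-2) * m021 + 4 * m111 + 2 * m201
  have m121 : V 1 2 1 = (-1/4) * V 0 1 0 + (-3/4) * V 1 0 0 + (-1) * V 0 3 0 := by
    have e := H.h01 0 1 1 (by norm_num)
    simp only [T0, T1, T2, Nat.reduceAdd, Nat.reduceSub] at e
    linear_combination 1 * e + (-1) * m012 + (-1) * m102 + 2 * m120 + 1 * m210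
  have m130 : V 1 3 0 = (7/2) * V 0 0 1 + (3/2) * V 0 0 2 + 4 * V 0 2 0 + (-2) * V 2 0 0 := by
    have e := H.h01 0 2 0 (by norm_num)
    simp only [T0, T1, T2, Nat.reduceAdd, Nat.reduceSub] at e
    linear_combination 1 * e + (-1) * m021 + (-2) * m111
  have m202 : V 2 0 2 = (8/3) * V 0 0 1 + (4/3) * V 0 0 2 + (4/3) * V 0 2 0 + (-4/3) * V 2 0 0 := by
    have e := H.h02 1 0 1 (by norm_num)
    simp only [T0, T1, T2, Nat.reduceAdd, Nat.reduceSub] at e
    linear_combination (1/3) * e + (-4/3) * m111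
  have m211 : V 2 1 1 = (-5/2) * V 0 1 0 + (-3/2) * V 1 0 0 + 1 * V 3 0 0 := by
    have e := H.h01 1 0 1 (by norm_num)
    simp only [T0, T1, T2, Nat.reduceAdd, Nat.reduceSub] at e
    linear_combination 1 * e + (-2) * m102 + (-1) * m120 + 2 * m210
  have m220 : V 2 2 0 = 3 * V 0 0 1 + 2 * V 0 0 2 + 2 * V 0 2 0 + (-2) * V 2 0 0 := by
    have e := H.h01 1 1 0 (by norm_num)
    simp only [T0, T1, T2, Nat.reduceAdd, Nat.reduceSub] at e
    linear_combination 1 * e + (-2) * m111 + (-1) * m201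
  have m301 : V 3 0 1 = (-16/9) * V 0 1 0 := by
    have e := H.h02 2 0 0 (by norm_num)
    simp only [T0, T1, T2, Nat.reduceAdd, Nat.reduceSub] at e
    linear_combination (1/3) * e + (-4/3) * m210
  have m310 : V 3 1 0 = (-3) * V 0 0 1 := by
    have e := H.h01 2 0 0 (by norm_num)
    simp only [T0, T1, T2, Nat.reduceAdd, Nat.reduceSub] at e
    linear_combination 1 * e + (-3) * m201
  have m023 : V 0 2 3 = (17/2) * V 0 0 1 + (19/2) * V 0 0 2 + (-28) * V 0 2 0 + (-2) * V 2 0 0 + (-1/2) * V 0 0 3 + (1/2) * V 0 0 4 := by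
    have e := H.h12 0 1 2 (by norm_num)
    simp only [T0, T1, T2, Nat.reduceAdd, Nat.reduceSub] at e
    linear_combination (1/2) * e + (-4) * m022 + (-3/2) * m112
  have m032 : V 0 3 2 = (-233/8) * V 0 1 0 + (-63/8) * V 1 0 0 + (39/4) * V 0 3 0 := by
    have e := H.h12 0 2 1 (by norm_num)
    simp only [T0, T1, T2, Nat.reduceAdd, Nat.reduceSub] at e
    linear_combination (1/2) * e + 1 * m013 + (-7/2) * m031 + (-1) * m121
  have m113 : V 1 1 3 = (-71/2) * V 0 0 1 + (-49/2) * V 0 0 2 + (-17) * V 0 2 0 + 23 * V 2 0 0 + (-15/2) * V 0 0 3 + (-1) * V 0 0 4 := by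
    have e := H.h01 0 0 3 (by norm_num)
    simp only [T0, T1, T2, Nat.reduceAdd, Nat.reduceSub] at e
    linear_combination 1 * e + (-3) * m022 + 6 * m112 + 3 * m202
  have m122 : V 1 2 2 = (787/72) * V 0 1 0 + (-29/24) * V 1 0 0 + 1 * V 0 3 0 + 2 * V 3 0 0 := by
    have e := H.h01 0 1 2 (by norm_num)
    simp only [T0, T1, T2, Nat.reduceAdd, Nat.reduceSub] at e
    linear_combination 1 * e + (-1) * m013 + (-2) * m031 + (-1) * m103 + 4 * m121 + 2 * m211
  have m131 : V 1 3 1 = (47/2) * V 0 0 1 + (31/2) * V 0 0 2 + 3 * V 0 2 0 + (-13) * V 2 0 0 + (3/2) * V 0 0 3 + (-1) * V 0 4 0 := by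
    have e := H.h01 0 2 1 (by norm_num)
    simp only [T0, T1, T2, Nat.reduceAdd, Nat.reduceSub] at e
    linear_combination 1 * e + (-1) * m022 + (-2) * m112 + 2 * m130 + 1 * m220
  have m140 : V 1 4 0 = (-31/12) * V 0 1 0 + (5/4) * V 1 0 0 + (11/2) * V 0 3 0 := by
    have e := H.h01 0 3 0 (by norm_num)
    simp only [T0, T1, T2, Nat.reduceAdd, Nat.reduceSub] at e
    linear_combination 1 * e + (-1) * m031 + (-3) * m121
  have m203 : V 2 0 3 = (35/3) * V 0 0 1 + (25/3) * V 0 0 2 + (-20/3) * V 2 0 0 + (5/3) * V 0 0 3 := by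
    have e := H.h02 1 0 2 (by norm_num)
    simp only [T0, T1, T2, Nat.reduceAdd, Nat.reduceSub] at e
    linear_combination (1/3) * e + (-5/3) * m112
  have m212 : V 2 1 2 = (-23/18) * V 0 1 0 + (-7/6) * V 1 0 0 + 2 * V 0 3 0 + 4 * V 3 0 0 := by
    have e := H.h01 1 0 2 (by norm_num)
    simp only [T0, T1, T2, Nat.reduceAdd, Nat.reduceSub] at e
    linear_combination 1 * e + (-2) * m103 + (-2) * m121 + 4 * m211 + 2 * m301
  have m221 : V 2 2 1 = (65/6) * V 0 0 1 + (67/6) * V 0 0 2 + (-4/3) * V 0 2 0 + (-26/3) * V 2 0 0 + 2 * V 0 0 3 := by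
    have e := H.h01 1 1 1 (by norm_num)
    simp only [T0, T1, T2, Nat.reduceAdd, Nat.reduceSub] at e
    linear_combination 1 * e + (-2) * m112 + (-1) * m130 + (-1) * m202 + 2 * m220 + 1 * m310
  have m230 : V 2 3 0 = (11/2) * V 0 1 0 + (9/2) * V 1 0 0 + 2 * V 0 3 0 + (-2) * V 3 0 0 := by
    have e := H.h01 1 2 0 (by norm_num)
    simp only [T0, T1, T2, Nat.reduceAdd, Nat.reduceSub] at e
    linear_combination 1 * e + (-2) * m121 + (-2) * m211
  have m302 : V 3 0 2 = (25/6) * V 0 1 0 + (5/2) * V 1 0 0 + (-5/3) * V 3 0 0 := by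
    have e := H.h02 2 0 1 (by norm_num)
    simp only [T0, T1, T2, Nat.reduceAdd, Nat.reduceSub] at e
    linear_combination (1/3) * e + (-5/3) * m211
  have m311 : V 3 1 1 = (-17) * V 0 0 1 + (-6) * V 0 0 2 + (-6) * V 0 2 0 + 6 * V 2 0 0 + 1 * V 4 0 0 := by
    have e := H.h01 2 0 1 (by norm_num)
    simp only [T0, T1, T2, Nat.reduceAdd, Nat.reduceSub] at e
    linear_combination 1 * e + (-3) * m202 + (-1) * m220 + 2 * m310
  have m320 : V 3 2 0 = (167/18) * V 0 1 0 + (9/2) * V 1 0 0 + (-3) * V 3 0 0 := by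
    have e := H.h01 2 1 0 (by norm_num)
    simp only [T0, T1, T2, Nat.reduceAdd, Nat.reduceSub] at e
    linear_combination 1 * e + (-3) * m211 + (-1) * m301
  have m401 : V 4 0 1 = 5 * V 0 0 1 := by
    have e := H.h02 3 0 0 (by norm_num)
    simp only [T0, T1, T2, Nat.reduceAdd, Nat.reduceSub] at e
    linear_combination (1/3) * e + (-5/3) * m310
  have m410 : V 4 1 0 = (64/9) * V 0 1 0 := by
    have e := H.h01 3 0 0 (by norm_num)
    simp only [T0, T1, T2, Nat.reduceAdd, Nat.reduceSub] at e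
    linear_combination 1 * e + (-4) * m301
  have m114 : V 1 1 4 = (-814/3) * V 0 0 1 + (-602/3) * V 0 0 2 + (-24) * V 0 2 0 + (496/3) * V 2 0 0 + (-154/3) * V 0 0 3 + (-10) * V 0 0 4 + (-1) * V 0 0 5 := by
    have e := H.h01 0 0 4 (by norm_num)
    simp only [T0, T1, T2, Nat.reduceAdd, Nat.reduceSub] at e
    linear_combination 1 * e + (-4) * m023 + 8 * m113 + 4 * m203
  have m141 : V 1 4 1 = (-10/3) * V 0 1 0 + (37/2) * V 1 0 0 + (1/4) * V 0 3 0 + (-8) * V 3 0 0 + (-1) * V 0 5 0 := by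
    have e := H.h01 0 3 1 (by norm_num)
    simp only [T0, T1, T2, Nat.reduceAdd, Nat.reduceSub] at e
    linear_combination 1 * e + (-1) * m032 + (-3) * m122 + 2 * m140 + 1 * m230
  have m222 : V 2 2 2 = (65/3) * V 0 0 1 + (127/3) * V 0 0 2 + (32/3) * V 0 2 0 + (-36) * V 2 0 0 + (55/3) * V 0 0 3 + 2 * V 0 0 4 + 2 * V 0 4 0 + 2 * V 4 0 0 := by
    have e := H.h01 1 1 2 (by norm_num)
    simp only [T0, T1, T2, Nat.reduceAdd, Nat.reduceSub] at e
    linear_combination 1 * e + (-2) * m113 + (-2) * m131 + (-1) * m203 + 4 * m221 + 2 * m311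
  have m312 : V 3 1 2 = (-344/3) * V 0 0 1 + (-214/3) * V 0 0 2 + (-64/3) * V 0 2 0 + (184/3) * V 2 0 0 + (-9) * V 0 0 3 + 4 * V 4 0 0 := by
    have e := H.h01 2 0 2 (by norm_num)
    simp only [T0, T1, T2, Nat.reduceAdd, Nat.reduceSub] at e
    linear_combination 1 * e + (-3) * m203 + (-2) * m221 + 4 * m311 + 2 * m401
  have m411 : V 4 1 1 = (-211/18) * V 0 1 0 + (-29/2) * V 1 0 0 + (29/3) * V 3 0 0 + 1 * V 5 0 0 := by
    have e := H.h01 3 0 1 (by norm_num)
    simp only [T0, T1, T2, Nat.reduceAdd, Nat.reduceSub] at e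
    linear_combination 1 * e + (-4) * m302 + (-1) * m320 + 2 * m410
  have c0 : (1/3) * V 0 1 0 + (-3) * V 1 0 0 + 3 * V 3 0 0 = 0 := by
    have e := H.h02 1 1 0 (by norm_num)
    simp only [T0, T1, T2, Nat.reduceAdd, Nat.reduceSub] at e
    linear_combination e + (-3) * m120 + (-1) * m210 + (-3) * m211
  have c1 : (43/12) * V 0 1 0 + (-5/4) * V 1 0 0 + (-1) * V 0 3 0 = 0 := by
    have e := H.h02 0 2 0 (by norm_num)
    simp only [T0, T1, T2, Nat.reduceAdd, Nat.reduceSub] at e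
    linear_combination e + (-2) * m120 + (-3) * m121
  have c2 : (-22/3) * V 0 1 0 + (-8) * V 1 0 0 + 2 * V 0 3 0 + 13 * V 3 0 0 = 0 := by
    have e := H.h02 1 1 1 (by norm_num)
    simp only [T0, T1, T2, Nat.reduceAdd, Nat.reduceSub] at e
    linear_combination e + (-4) * m121 + (-1) * m211 + (-3) * m212
  have c3 : (1015/24) * V 0 1 0 + (-17/8) * V 1 0 0 + (-13/2) * V 0 3 0 + 6 * V 3 0 0 = 0 := by
    have e := H.h02 0 2 1 (by norm_num)
    simp only [T0, T1, T2, Nat.reduceAdd, Nat.reduceSub] at e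
    linear_combination e + (-3) * m031 + (-2) * m121 + (-3) * m122
  have c4 : (55/3) * V 0 1 0 + (-21) * V 1 0 0 + 14 * V 3 0 0 + 3 * V 5 0 0 = 0 := by
    have e := H.h02 3 1 0 (by norm_num)
    simp only [T0, T1, T2, Nat.reduceAdd, Nat.reduceSub] at e
    linear_combination e + (-5) * m320 + (-1) * m410 + (-3) * m411
  have c5 : (-61/3) * V 0 1 0 + (121/2) * V 1 0 0 + (91/4) * V 0 3 0 + (-24) * V 3 0 0 + (-1) * V 0 5 0 = 0 := by
    have e := H.h02 0 4 0 (by norm_num)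
    simp only [T0, T1, T2, Nat.reduceAdd, Nat.reduceSub] at e
    linear_combination e + (-4) * m140 + (-3) * m141
  have z100 : V 1 0 0 = 0 := by
    linear_combination (-496/391) * c0 + (41/102) * c1 + (110/391) * c2 + (29/1173) * c3
  have z010 : V 0 1 0 = 0 := by
    linear_combination (282/391) * c0 + (-21/34) * c1 + (-72/391) * c2 + (15/391) * c3
  have z300 : V 3 0 0 = 0 := by
    linear_combination (-397/391) * c0 + (8/17) * c1 + (118/391) * c2 + (8/391) * c3
  have z030 : V 0 3 0 = 0 := by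
    linear_combination (3261/782) * c0 + (-379/102) * c1 + (-791/782) * c2 + (125/1173) * c3
  have z500 : V 5 0 0 = 0 := by
    linear_combination (-436/51) * c0 + (224/51) * c1 + (86/51) * c2 + (-8/51) * c3 + (1/3) * c4
  have z050 : V 0 5 0 = 0 := by
    linear_combination (87039/3128) * c0 + (-8017/136) * c1 + (-29685/3128) * c2 + (4143/1564) * c3 + (-1) * c5
  have c6 : (-7) * V 0 0 1 + (-3) * V 0 0 2 + (-1) * V 0 2 0 + 3 * V 2 0 0 = 0 := by
    have e := H.h02 0 1 0 (by norm_num)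
    simp only [T0, T1, T2, Nat.reduceAdd, Nat.reduceSub] at e
    linear_combination e + (-1) * m110 + (-3) * m111
  have c7 : (-43/2) * V 0 0 1 + (-29/2) * V 0 0 2 + (-7) * V 0 2 0 + 13 * V 2 0 0 + (-3) * V 0 0 3 = 0 := by
    have e := H.h02 0 1 1 (by norm_num)
    simp only [T0, T1, T2, Nat.reduceAdd, Nat.reduceSub] at e
    linear_combination e + (-3) * m021 + (-1) * m111 + (-3) * m112
  have c8 : (-42) * V 0 0 1 + (-10) * V 0 0 2 + (-10) * V 0 2 0 + 10 * V 2 0 0 + 3 * V 4 0 0 = 0 := by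
    have e := H.h02 2 1 0 (by norm_num)
    simp only [T0, T1, T2, Nat.reduceAdd, Nat.reduceSub] at e
    linear_combination e + (-4) * m220 + (-1) * m310 + (-3) * m311
  have c9 : 49 * V 0 0 1 + 42 * V 0 0 2 + 12 * V 0 2 0 + (-36) * V 2 0 0 + 6 * V 0 0 3 = 0 := by
    have e := H.h02 1 2 0 (by norm_num)
    simp only [T0, T1, T2, Nat.reduceAdd, Nat.reduceSub] at e
    linear_combination e + (-3) * m130 + (-2) * m220 + (-3) * m221
  have c10 : 81 * V 0 0 1 + 51 * V 0 0 2 + 21 * V 0 2 0 + (-45) * V 2 0 0 + (9/2) * V 0 0 3 + (-1) * V 0 4 0 = 0 := by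
    have e := H.h02 0 3 0 (by norm_num)
    simp only [T0, T1, T2, Nat.reduceAdd, Nat.reduceSub] at e
    linear_combination e + (-3) * m130 + (-3) * m131
  have c11 : (-223/2) * V 0 0 1 + (-161/2) * V 0 0 2 + (-23) * V 0 2 0 + 69 * V 2 0 0 + (-43/2) * V 0 0 3 + (-3) * V 0 0 4 = 0 := by
    have e := H.h02 0 1 2 (by norm_num)
    simp only [T0, T1, T2, Nat.reduceAdd, Nat.reduceSub] at e
    linear_combination e + (-4) * m022 + (-1) * m112 + (-3) * m113
  have c12 : (-1841/6) * V 0 0 1 + (-985/6) * V 0 0 2 + (-230/3) * V 0 2 0 + (440/3) * V 2 0 0 + (-17) * V 0 0 3 + 13 * V 4 0 0 = 0 := by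
    have e := H.h02 2 1 1 (by norm_num)
    simp only [T0, T1, T2, Nat.reduceAdd, Nat.reduceSub] at e
    linear_combination e + (-5) * m221 + (-1) * m311 + (-3) * m312
  have c13 : (542/3) * V 0 0 1 + (634/3) * V 0 0 2 + (124/3) * V 0 2 0 + (-532/3) * V 2 0 0 + 65 * V 0 0 3 + 6 * V 0 0 4 + 2 * V 0 4 0 + 6 * V 4 0 0 = 0 := by
    have e := H.h02 1 2 1 (by norm_num)
    simp only [T0, T1, T2, Nat.reduceAdd, Nat.reduceSub] at e
    linear_combination e + (-4) * m131 + (-2) * m221 + (-3) * m222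
  have c14 : (-807) * V 0 0 1 + (-579) * V 0 0 2 + (-229) * V 0 2 0 + 509 * V 2 0 0 + (-164) * V 0 0 3 + (-57/2) * V 0 0 4 + (-3) * V 0 0 5 = 0 := by
    have e := H.h02 0 1 3 (by norm_num)
    simp only [T0, T1, T2, Nat.reduceAdd, Nat.reduceSub] at e
    linear_combination e + (-5) * m023 + (-1) * m113 + (-3) * m114
  have z200 : V 2 0 0 = 0 := by
    linear_combination (5/2) * c6 + (-1403/1666) * c7 + (-4583/4998) * c8 + (1537/714) * c9 + (-508/833) * c10 + (-508/833) * c11 + (587/1666) * c12 + (-254/833) * c13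
  have z400 : V 4 0 0 = 0 := by
    linear_combination (-82/49) * c7 + (5/49) * c8 + (10/7) * c9 + (-32/49) * c10 + (-32/49) * c11 + (10/49) * c12 + (-16/49) * c13
  have z020 : V 0 2 0 = 0 := by
    linear_combination (1/2) * c6 + (-4279/4998) * c7 + (1305/1666) * c8 + (13/238) * c9 + (-256/833) * c10 + (-256/833) * c11 + (-183/1666) * c12 + (-128/833) * c13
  have z040 : V 0 4 0 = 0 := by
    linear_combination (-5013/833) * c7 + (2773/833) * c8 + (478/119) * c9 + (-3008/833) * c10 + (-2175/833) * c11 + (-138/833) * c12 + (-2175/1666) * c13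
  have z001 : V 0 0 1 = 0 := by
    linear_combination (92/2499) * c7 + (-264/833) * c8 + (25/119) * c9 + (4/833) * c10 + (4/833) * c11 + (60/833) * c12 + (2/833) * c13
  have z002 : V 0 0 2 = 0 := by
    linear_combination 2 * c6 + (-1606/2499) * c7 + (-1096/2499) * c8 + (587/357) * c9 + (-432/833) * c10 + (-432/833) * c11 + (184/833) * c12 + (-216/833) * c13
  have z003 : V 0 0 3 = 0 := by
    linear_combination (6428/7497) * c7 + (-3524/2499) * c8 + (-30/119) * c9 + (1366/2499) * c10 + (1366/2499) * c11 + (166/833) * c12 + (683/2499) * c13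
  have z004 : V 0 0 4 = 0 := by
    linear_combination (-69133/22491) * c7 + (49166/7497) * c8 + (-1103/1071) * c9 + (-13871/7497) * c10 + (-16370/7497) * c11 + (-905/833) * c12 + (-13871/14994) * c13
  have z005 : V 0 0 5 = 0 := by
    linear_combination (851453/44982) * c7 + (-230054/7497) * c8 + (23083/2142) * c9 + (97213/14994) * c10 + (72347/7497) * c11 + (9305/1666) * c12 + (97213/29988) * c13 + (-1/3) * c14
  exact ⟨z100, z200, z300, z400, z500, z010, z020, z030, z040, z050, z001, z002, z003, z004, z005⟩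

theorem caseB {V : ℕ → ℕ → ℕ → ℝ} (H : Eqs 1 (-1) (-1) V) : Zer V := by
  have m011 : V 0 1 1 = (3/2) * V 0 1 0 + (1/2) * V 1 0 0 := by
    have e := H.h12 0 0 0 (by norm_num)
    simp only [T0, T1, T2, Nat.reduceAdd, Nat.reduceSub] at e
    linear_combination (1/2) * e
  have m101 : V 1 0 1 = (2/3) * V 0 1 0 := by
    have e := H.h02 0 0 0 (by norm_num)
    simp only [T0, T1, T2, Nat.reduceAdd, Nat.reduceSub] at e
    linear_combination (1/3) * e
  have m110 : V 1 1 0 = (-1) * V 0 0 1 := by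
    have e := H.h01 0 0 0 (by norm_num)
    simp only [T0, T1, T2, Nat.reduceAdd, Nat.reduceSub] at e
    linear_combination 1 * e
  have m012 : V 0 1 2 = (53/12) * V 0 1 0 + (5/4) * V 1 0 0 := by
    have e := H.h12 0 0 1 (by norm_num)
    simp only [T0, T1, T2, Nat.reduceAdd, Nat.reduceSub] at e
    linear_combination (1/2) * e + (5/2) * m011 + 1 * m101
  have m021 : V 0 2 1 = (-1/2) * V 0 0 1 + (1/2) * V 0 0 2 + 2 * V 0 2 0 := by
    have e := H.h12 0 1 0 (by norm_num)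
    simp only [T0, T1, T2, Nat.reduceAdd, Nat.reduceSub] at e
    linear_combination (1/2) * e + (1/2) * m110
  have m102 : V 1 0 2 = (3/2) * V 0 1 0 + (1/2) * V 1 0 0 := by
    have e := H.h02 0 0 1 (by norm_num)
    simp only [T0, T1, T2, Nat.reduceAdd, Nat.reduceSub] at e
    linear_combination (1/3) * e + 1 * m011
  have m111 : V 1 1 1 = 2 * V 0 0 1 + (-1) * V 0 0 2 + 1 * V 0 2 0 + (-1) * V 2 0 0 := by
    have e := H.h01 0 0 1 (by norm_num)
    simp only [T0, T1, T2, Nat.reduceAdd, Nat.reduceSub] at e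
    linear_combination 1 * e + (-2) * m110
  have m120 : V 1 2 0 = (-13/6) * V 0 1 0 + (-1/2) * V 1 0 0 := by
    have e := H.h01 0 1 0 (by norm_num)
    simp only [T0, T1, T2, Nat.reduceAdd, Nat.reduceSub] at e
    linear_combination 1 * e + (-1) * m011 + (-1) * m101
  have m201 : V 2 0 1 = (-1) * V 0 0 1 := by
    have e := H.h02 1 0 0 (by norm_num)
    simp only [T0, T1, T2, Nat.reduceAdd, Nat.reduceSub] at e
    linear_combination (1/3) * e + 1 * m110
  have m210 : V 2 1 0 = (-4/3) * V 0 1 0 := by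
    have e := H.h01 1 0 0 (by norm_num)
    simp only [T0, T1, T2, Nat.reduceAdd, Nat.reduceSub] at e
    linear_combination 1 * e + (-2) * m101
  have m013 : V 0 1 3 = (425/24) * V 0 1 0 + (41/8) * V 1 0 0 := by
    have e := H.h12 0 0 2 (by norm_num)
    simp only [T0, T1, T2, Nat.reduceAdd, Nat.reduceSub] at e
    linear_combination (1/2) * e + (7/2) * m012 + (3/2) * m102
  have m022 : V 0 2 2 = (1/2) * V 0 0 1 + (1/2) * V 0 0 2 + 7 * V 0 2 0 + (-1) * V 2 0 0 + (1/2) * V 0 0 3 := by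
    have e := H.h12 0 1 1 (by norm_num)
    simp only [T0, T1, T2, Nat.reduceAdd, Nat.reduceSub] at e
    linear_combination (1/2) * e + 3 * m021 + 1 * m111
  have m031 : V 0 3 1 = (10/3) * V 0 1 0 + 1 * V 1 0 0 + (5/2) * V 0 3 0 := by
    have e := H.h12 0 2 0 (by norm_num)
    simp only [T0, T1, T2, Nat.reduceAdd, Nat.reduceSub] at e
    linear_combination (1/2) * e + 1 * m012 + (1/2) * m120
  have m103 : V 1 0 3 = (53/9) * V 0 1 0 + (5/3) * V 1 0 0 := by
    have e := H.h02 0 0 2 (by norm_num)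
    simp only [T0, T1, T2, Nat.reduceAdd, Nat.reduceSub] at e
    linear_combination (1/3) * e + (4/3) * m012
  have m112 : V 1 1 2 = (-7) * V 0 0 1 + 5 * V 0 0 2 + 4 * V 2 0 0 + (-1) * V 0 0 3 := by
    have e := H.h01 0 0 2 (by norm_num)
    simp only [T0, T1, T2, Nat.reduceAdd, Nat.reduceSub] at e
    linear_combination 1 * e + 2 * m021 + (-4) * m111 + (-2) * m201
  have m121 : V 1 2 1 = (-1/4) * V 0 1 0 + (-3/4) * V 1 0 0 + 1 * V 0 3 0 := by
    have e := H.h01 0 1 1 (by norm_num)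
    simp only [T0, T1, T2, Nat.reduceAdd, Nat.reduceSub] at e
    linear_combination 1 * e + (-1) * m012 + (-1) * m102 + (-2) * m120 + (-1) * m210
  have m130 : V 1 3 0 = (-7/2) * V 0 0 1 + (3/2) * V 0 0 2 + (-4) * V 0 2 0 + 2 * V 2 0 0 := by
    have e := H.h01 0 2 0 (by norm_num)
    simp only [T0, T1, T2, Nat.reduceAdd, Nat.reduceSub] at e
    linear_combination 1 * e + (-1) * m021 + (-2) * m111
  have m202 : V 2 0 2 = (8/3) * V 0 0 1 + (-4/3) * V 0 0 2 + (4/3) * V 0 2 0 + (-4/3) * V 2 0 0 := by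
    have e := H.h02 1 0 1 (by norm_num)
    simp only [T0, T1, T2, Nat.reduceAdd, Nat.reduceSub] at e
    linear_combination (1/3) * e + (4/3) * m111
  have m211 : V 2 1 1 = (-5/2) * V 0 1 0 + (-3/2) * V 1 0 0 + (-1) * V 3 0 0 := by
    have e := H.h01 1 0 1 (by norm_num)
    simp only [T0, T1, T2, Nat.reduceAdd, Nat.reduceSub] at e
    linear_combination 1 * e + (-2) * m102 + 1 * m120 + (-2) * m210
  have m220 : V 2 2 0 = (-3) * V 0 0 1 + 2 * V 0 0 2 + (-2) * V 0 2 0 + 2 * V 2 0 0 := by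
    have e := H.h01 1 1 0 (by norm_num)
    simp only [T0, T1, T2, Nat.reduceAdd, Nat.reduceSub] at e
    linear_combination 1 * e + (-2) * m111 + (-1) * m201
  have m301 : V 3 0 1 = (-16/9) * V 0 1 0 := by
    have e := H.h02 2 0 0 (by norm_num)
    simp only [T0, T1, T2, Nat.reduceAdd, Nat.reduceSub] at e
    linear_combination (1/3) * e + (4/3) * m210
  have m310 : V 3 1 0 = 3 * V 0 0 1 := by
    have e := H.h01 2 0 0 (by norm_num)
    simp only [T0, T1, T2, Nat.reduceAdd, Nat.reduceSub] at e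
    linear_combination 1 * e + (-3) * m201
  have m023 : V 0 2 3 = (-17/2) * V 0 0 1 + (19/2) * V 0 0 2 + 28 * V 0 2 0 + 2 * V 2 0 0 + (1/2) * V 0 0 3 + (1/2) * V 0 0 4 := by
    have e := H.h12 0 1 2 (by norm_num)
    simp only [T0, T1, T2, Nat.reduceAdd, Nat.reduceSub] at e
    linear_combination (1/2) * e + 4 * m022 + (3/2) * m112
  have m032 : V 0 3 2 = (233/8) * V 0 1 0 + (63/8) * V 1 0 0 + (39/4) * V 0 3 0 := by
    have e := H.h12 0 2 1 (by norm_num)
    simp only [T0, T1, T2, Nat.reduceAdd, Nat.reduceSub] at e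
    linear_combination (1/2) * e + 1 * m013 + (7/2) * m031 + 1 * m121
  have m113 : V 1 1 3 = (71/2) * V 0 0 1 + (-49/2) * V 0 0 2 + 17 * V 0 2 0 + (-23) * V 2 0 0 + (15/2) * V 0 0 3 + (-1) * V 0 0 4 := by
    have e := H.h01 0 0 3 (by norm_num)
    simp only [T0, T1, T2, Nat.reduceAdd, Nat.reduceSub] at e
    linear_combination 1 * e + 3 * m022 + (-6) * m112 + (-3) * m202
  have m122 : V 1 2 2 = (-787/72) * V 0 1 0 + (29/24) * V 1 0 0 + 1 * V 0 3 0 + 2 * V 3 0 0 := by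
    have e := H.h01 0 1 2 (by norm_num)
    simp only [T0, T1, T2, Nat.reduceAdd, Nat.reduceSub] at e
    linear_combination 1 * e + (-1) * m013 + 2 * m031 + (-1) * m103 + (-4) * m121 + (-2) * m211
  have m131 : V 1 3 1 = (47/2) * V 0 0 1 + (-31/2) * V 0 0 2 + 3 * V 0 2 0 + (-13) * V 2 0 0 + (3/2) * V 0 0 3 + 1 * V 0 4 0 := by
    have e := H.h01 0 2 1 (by norm_num)
    simp only [T0, T1, T2, Nat.reduceAdd, Nat.reduceSub] at e
    linear_combination 1 * e + (-1) * m022 + (-2) * m112 + (-2) * m130 + (-1) * m220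
  have m140 : V 1 4 0 = (-31/12) * V 0 1 0 + (5/4) * V 1 0 0 + (-11/2) * V 0 3 0 := by
    have e := H.h01 0 3 0 (by norm_num)
    simp only [T0, T1, T2, Nat.reduceAdd, Nat.reduceSub] at e
    linear_combination 1 * e + (-1) * m031 + (-3) * m121
  have m203 : V 2 0 3 = (-35/3) * V 0 0 1 + (25/3) * V 0 0 2 + (20/3) * V 2 0 0 + (-5/3) * V 0 0 3 := by
    have e := H.h02 1 0 2 (by norm_num)
    simp only [T0, T1, T2, Nat.reduceAdd, Nat.reduceSub] at e
    linear_combination (1/3) * e + (5/3) * m112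
  have m212 : V 2 1 2 = (23/18) * V 0 1 0 + (7/6) * V 1 0 0 + 2 * V 0 3 0 + 4 * V 3 0 0 := by
    have e := H.h01 1 0 2 (by norm_num)
    simp only [T0, T1, T2, Nat.reduceAdd, Nat.reduceSub] at e
    linear_combination 1 * e + (-2) * m103 + 2 * m121 + (-4) * m211 + (-2) * m301
  have m221 : V 2 2 1 = (65/6) * V 0 0 1 + (-67/6) * V 0 0 2 + (-4/3) * V 0 2 0 + (-26/3) * V 2 0 0 + 2 * V 0 0 3 := by
    have e := H.h01 1 1 1 (by norm_num)
    simp only [T0, T1, T2, Nat.reduceAdd, Nat.reduceSub] at e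
    linear_combination 1 * e + (-2) * m112 + 1 * m130 + (-1) * m202 + (-2) * m220 + (-1) * m310
  have m230 : V 2 3 0 = (11/2) * V 0 1 0 + (9/2) * V 1 0 0 + (-2) * V 0 3 0 + 2 * V 3 0 0 := by
    have e := H.h01 1 2 0 (by norm_num)
    simp only [T0, T1, T2, Nat.reduceAdd, Nat.reduceSub] at e
    linear_combination 1 * e + (-2) * m121 + (-2) * m211
  have m302 : V 3 0 2 = (-25/6) * V 0 1 0 + (-5/2) * V 1 0 0 + (-5/3) * V 3 0 0 := by
    have e := H.h02 2 0 1 (by norm_num)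
    simp only [T0, T1, T2, Nat.reduceAdd, Nat.reduceSub] at e
    linear_combination (1/3) * e + (5/3) * m211
  have m311 : V 3 1 1 = (-17) * V 0 0 1 + 6 * V 0 0 2 + (-6) * V 0 2 0 + 6 * V 2 0 0 + (-1) * V 4 0 0 := by
    have e := H.h01 2 0 1 (by norm_num)
    simp only [T0, T1, T2, Nat.reduceAdd, Nat.reduceSub] at e
    linear_combination 1 * e + (-3) * m202 + 1 * m220 + (-2) * m310
  have m320 : V 3 2 0 = (167/18) * V 0 1 0 + (9/2) * V 1 0 0 + 3 * V 3 0 0 := by
    have e := H.h01 2 1 0 (by norm_num)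
    simp only [T0, T1, T2, Nat.reduceAdd, Nat.reduceSub] at e
    linear_combination 1 * e + (-3) * m211 + (-1) * m301
  have m401 : V 4 0 1 = 5 * V 0 0 1 := by
    have e := H.h02 3 0 0 (by norm_num)
    simp only [T0, T1, T2, Nat.reduceAdd, Nat.reduceSub] at e
    linear_combination (1/3) * e + (5/3) * m310
  have m410 : V 4 1 0 = (64/9) * V 0 1 0 := by
    have e := H.h01 3 0 0 (by norm_num)
    simp only [T0, T1, T2, Nat.reduceAdd, Nat.reduceSub] at e
    linear_combination 1 * e + (-4) * m301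
  have m114 : V 1 1 4 = (-814/3) * V 0 0 1 + (602/3) * V 0 0 2 + (-24) * V 0 2 0 + (496/3) * V 2 0 0 + (-154/3) * V 0 0 3 + 10 * V 0 0 4 + (-1) * V 0 0 5 := by
    have e := H.h01 0 0 4 (by norm_num)
    simp only [T0, T1, T2, Nat.reduceAdd, Nat.reduceSub] at e
    linear_combination 1 * e + 4 * m023 + (-8) * m113 + (-4) * m203
  have m141 : V 1 4 1 = (10/3) * V 0 1 0 + (-37/2) * V 1 0 0 + (1/4) * V 0 3 0 + (-8) * V 3 0 0 + 1 * V 0 5 0 := by
    have e := H.h01 0 3 1 (by norm_num)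
    simp only [T0, T1, T2, Nat.reduceAdd, Nat.reduceSub] at e
    linear_combination 1 * e + (-1) * m032 + (-3) * m122 + (-2) * m140 + (-1) * m230
  have m222 : V 2 2 2 = (-65/3) * V 0 0 1 + (127/3) * V 0 0 2 + (-32/3) * V 0 2 0 + 36 * V 2 0 0 + (-55/3) * V 0 0 3 + 2 * V 0 0 4 + 2 * V 0 4 0 + 2 * V 4 0 0 := by
    have e := H.h01 1 1 2 (by norm_num)
    simp only [T0, T1, T2, Nat.reduceAdd, Nat.reduceSub] at e
    linear_combination 1 * e + (-2) * m113 + 2 * m131 + (-1) * m203 + (-4) * m221 + (-2) * m311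
  have m312 : V 3 1 2 = (344/3) * V 0 0 1 + (-214/3) * V 0 0 2 + (64/3) * V 0 2 0 + (-184/3) * V 2 0 0 + 9 * V 0 0 3 + 4 * V 4 0 0 := by
    have e := H.h01 2 0 2 (by norm_num)
    simp only [T0, T1, T2, Nat.reduceAdd, Nat.reduceSub] at e
    linear_combination 1 * e + (-3) * m203 + 2 * m221 + (-4) * m311 + (-2) * m401
  have m411 : V 4 1 1 = (211/18) * V 0 1 0 + (29/2) * V 1 0 0 + (29/3) * V 3 0 0 + (-1) * V 5 0 0 := by
    have e := H.h01 3 0 1 (by norm_num)
    simp only [T0, T1, T2, Nat.reduceAdd, Nat.reduceSub] at e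
    linear_combination 1 * e + (-4) * m302 + 1 * m320 + (-2) * m410
  have c0 : (1/3) * V 0 1 0 + (-3) * V 1 0 0 + (-3) * V 3 0 0 = 0 := by
    have e := H.h02 1 1 0 (by norm_num)
    simp only [T0, T1, T2, Nat.reduceAdd, Nat.reduceSub] at e
    linear_combination e + 3 * m120 + 1 * m210 + (-3) * m211
  have c1 : (43/12) * V 0 1 0 + (-5/4) * V 1 0 0 + 1 * V 0 3 0 = 0 := by
    have e := H.h02 0 2 0 (by norm_num)
    simp only [T0, T1, T2, Nat.reduceAdd, Nat.reduceSub] at e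
    linear_combination e + 2 * m120 + (-3) * m121
  have c2 : (22/3) * V 0 1 0 + 8 * V 1 0 0 + 2 * V 0 3 0 + 13 * V 3 0 0 = 0 := by
    have e := H.h02 1 1 1 (by norm_num)
    simp only [T0, T1, T2, Nat.reduceAdd, Nat.reduceSub] at e
    linear_combination e + 4 * m121 + 1 * m211 + (-3) * m212
  have c3 : (-1015/24) * V 0 1 0 + (17/8) * V 1 0 0 + (-13/2) * V 0 3 0 + 6 * V 3 0 0 = 0 := by
    have e := H.h02 0 2 1 (by norm_num)
    simp only [T0, T1, T2, Nat.reduceAdd, Nat.reduceSub] at e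
    linear_combination e + 3 * m031 + 2 * m121 + (-3) * m122
  have c4 : (-55/3) * V 0 1 0 + 21 * V 1 0 0 + 14 * V 3 0 0 + (-3) * V 5 0 0 = 0 := by
    have e := H.h02 3 1 0 (by norm_num)
    simp only [T0, T1, T2, Nat.reduceAdd, Nat.reduceSub] at e
    linear_combination e + 5 * m320 + 1 * m410 + (-3) * m411
  have c5 : (61/3) * V 0 1 0 + (-121/2) * V 1 0 0 + (91/4) * V 0 3 0 + (-24) * V 3 0 0 + 1 * V 0 5 0 = 0 := by
    have e := H.h02 0 4 0 (by norm_num)
    simp only [T0, T1, T2, Nat.reduceAdd, Nat.reduceSub] at e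
    linear_combination e + 4 * m140 + (-3) * m141
  have z100 : V 1 0 0 = 0 := by
    linear_combination (-496/391) * c0 + (41/102) * c1 + (-110/391) * c2 + (-29/1173) * c3
  have z010 : V 0 1 0 = 0 := by
    linear_combination (282/391) * c0 + (-21/34) * c1 + (72/391) * c2 + (-15/391) * c3
  have z300 : V 3 0 0 = 0 := by
    linear_combination (397/391) * c0 + (-8/17) * c1 + (118/391) * c2 + (8/391) * c3
  have z030 : V 0 3 0 = 0 := by
    linear_combination (-3261/782) * c0 + (379/102) * c1 + (-791/782) * c2 + (125/1173) * c3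
  have z500 : V 5 0 0 = 0 := by
    linear_combination (-436/51) * c0 + (224/51) * c1 + (-86/51) * c2 + (8/51) * c3 + (-1/3) * c4
  have z050 : V 0 5 0 = 0 := by
    linear_combination (87039/3128) * c0 + (-8017/136) * c1 + (29685/3128) * c2 + (-4143/1564) * c3 + 1 * c5
  have c6 : 7 * V 0 0 1 + (-3) * V 0 0 2 + 1 * V 0 2 0 + (-3) * V 2 0 0 = 0 := by
    have e := H.h02 0 1 0 (by norm_num)
    simp only [T0, T1, T2, Nat.reduceAdd, Nat.reduceSub] at e
    linear_combination e + 1 * m110 + (-3) * m111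
  have c7 : (-43/2) * V 0 0 1 + (29/2) * V 0 0 2 + (-7) * V 0 2 0 + 13 * V 2 0 0 + (-3) * V 0 0 3 = 0 := by
    have e := H.h02 0 1 1 (by norm_num)
    simp only [T0, T1, T2, Nat.reduceAdd, Nat.reduceSub] at e
    linear_combination e + 3 * m021 + 1 * m111 + (-3) * m112
  have c8 : (-42) * V 0 0 1 + 10 * V 0 0 2 + (-10) * V 0 2 0 + 10 * V 2 0 0 + (-3) * V 4 0 0 = 0 := by
    have e := H.h02 2 1 0 (by norm_num)
    simp only [T0, T1, T2, Nat.reduceAdd, Nat.reduceSub] at e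
    linear_combination e + 4 * m220 + 1 * m310 + (-3) * m311
  have c9 : 49 * V 0 0 1 + (-42) * V 0 0 2 + 12 * V 0 2 0 + (-36) * V 2 0 0 + 6 * V 0 0 3 = 0 := by
    have e := H.h02 1 2 0 (by norm_num)
    simp only [T0, T1, T2, Nat.reduceAdd, Nat.reduceSub] at e
    linear_combination e + 3 * m130 + 2 * m220 + (-3) * m221
  have c10 : 81 * V 0 0 1 + (-51) * V 0 0 2 + 21 * V 0 2 0 + (-45) * V 2 0 0 + (9/2) * V 0 0 3 + 1 * V 0 4 0 = 0 := by
    have e := H.h02 0 3 0 (by norm_num)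
    simp only [T0, T1, T2, Nat.reduceAdd, Nat.reduceSub] at e
    linear_combination e + 3 * m130 + (-3) * m131
  have c11 : (223/2) * V 0 0 1 + (-161/2) * V 0 0 2 + 23 * V 0 2 0 + (-69) * V 2 0 0 + (43/2) * V 0 0 3 + (-3) * V 0 0 4 = 0 := by
    have e := H.h02 0 1 2 (by norm_num)
    simp only [T0, T1, T2, Nat.reduceAdd, Nat.reduceSub] at e
    linear_combination e + 4 * m022 + 1 * m112 + (-3) * m113
  have c12 : (1841/6) * V 0 0 1 + (-985/6) * V 0 0 2 + (230/3) * V 0 2 0 + (-440/3) * V 2 0 0 + 17 * V 0 0 3 + 13 * V 4 0 0 = 0 := by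
    have e := H.h02 2 1 1 (by norm_num)
    simp only [T0, T1, T2, Nat.reduceAdd, Nat.reduceSub] at e
    linear_combination e + 5 * m221 + 1 * m311 + (-3) * m312
  have c13 : (-542/3) * V 0 0 1 + (634/3) * V 0 0 2 + (-124/3) * V 0 2 0 + (532/3) * V 2 0 0 + (-65) * V 0 0 3 + 6 * V 0 0 4 + 2 * V 0 4 0 + 6 * V 4 0 0 = 0 := by
    have e := H.h02 1 2 1 (by norm_num)
    simp only [T0, T1, T2, Nat.reduceAdd, Nat.reduceSub] at e
    linear_combination e + 4 * m131 + 2 * m221 + (-3) * m222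
  have c14 : (-807) * V 0 0 1 + 579 * V 0 0 2 + (-229) * V 0 2 0 + 509 * V 2 0 0 + (-164) * V 0 0 3 + (57/2) * V 0 0 4 + (-3) * V 0 0 5 = 0 := by
    have e := H.h02 0 1 3 (by norm_num)
    simp only [T0, T1, T2, Nat.reduceAdd, Nat.reduceSub] at e
    linear_combination e + 5 * m023 + 1 * m113 + (-3) * m114
  have z200 : V 2 0 0 = 0 := by
    linear_combination (-5/2) * c6 + (-1403/1666) * c7 + (-4583/4998) * c8 + (1537/714) * c9 + (-508/833) * c10 + (508/833) * c11 + (-587/1666) * c12 + (254/833) * c13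
  have z400 : V 4 0 0 = 0 := by
    linear_combination (82/49) * c7 + (-5/49) * c8 + (-10/7) * c9 + (32/49) * c10 + (-32/49) * c11 + (10/49) * c12 + (-16/49) * c13
  have z020 : V 0 2 0 = 0 := by
    linear_combination (-1/2) * c6 + (-4279/4998) * c7 + (1305/1666) * c8 + (13/238) * c9 + (-256/833) * c10 + (256/833) * c11 + (183/1666) * c12 + (128/833) * c13
  have z040 : V 0 4 0 = 0 := by
    linear_combination (5013/833) * c7 + (-2773/833) * c8 + (-478/119) * c9 + (3008/833) * c10 + (-2175/833) * c11 + (-138/833) * c12 + (-2175/1666) * c13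
  have z001 : V 0 0 1 = 0 := by
    linear_combination (92/2499) * c7 + (-264/833) * c8 + (25/119) * c9 + (4/833) * c10 + (-4/833) * c11 + (-60/833) * c12 + (-2/833) * c13
  have z002 : V 0 0 2 = 0 := by
    linear_combination 2 * c6 + (1606/2499) * c7 + (1096/2499) * c8 + (-587/357) * c9 + (432/833) * c10 + (-432/833) * c11 + (184/833) * c12 + (-216/833) * c13
  have z003 : V 0 0 3 = 0 := by
    linear_combination (6428/7497) * c7 + (-3524/2499) * c8 + (-30/119) * c9 + (1366/2499) * c10 + (-1366/2499) * c11 + (-166/833) * c12 + (-683/2499) * c13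
  have z004 : V 0 0 4 = 0 := by
    linear_combination (69133/22491) * c7 + (-49166/7497) * c8 + (1103/1071) * c9 + (13871/7497) * c10 + (-16370/7497) * c11 + (-905/833) * c12 + (-13871/14994) * c13
  have z005 : V 0 0 5 = 0 := by
    linear_combination (851453/44982) * c7 + (-230054/7497) * c8 + (23083/2142) * c9 + (97213/14994) * c10 + (-72347/7497) * c11 + (-9305/1666) * c12 + (-97213/29988) * c13 + (-1/3) * c14
  exact ⟨z100, z200, z300, z400, z500, z010, z020, z030, z040, z050, z001, z002, z003, z004, z005⟩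

theorem caseC {V : ℕ → ℕ → ℕ → ℝ} (H : Eqs (-1) 1 (-1) V) : Zer V := by
  have m011 : V 0 1 1 = (3/2) * V 0 1 0 + (1/2) * V 1 0 0 := by
    have e := H.h12 0 0 0 (by norm_num)
    simp only [T0, T1, T2, Nat.reduceAdd, Nat.reduceSub] at e
    linear_combination (1/2) * e
  have m101 : V 1 0 1 = (-2/3) * V 0 1 0 := by
    have e := H.h02 0 0 0 (by norm_num)
    simp only [T0, T1, T2, Nat.reduceAdd, Nat.reduceSub] at e
    linear_combination (1/3) * e
  have m110 : V 1 1 0 = 1 * V 0 0 1 := by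
    have e := H.h01 0 0 0 (by norm_num)
    simp only [T0, T1, T2, Nat.reduceAdd, Nat.reduceSub] at e
    linear_combination 1 * e
  have m012 : V 0 1 2 = (37/12) * V 0 1 0 + (5/4) * V 1 0 0 := by
    have e := H.h12 0 0 1 (by norm_num)
    simp only [T0, T1, T2, Nat.reduceAdd, Nat.reduceSub] at e
    linear_combination (1/2) * e + (5/2) * m011 + 1 * m101
  have m021 : V 0 2 1 = (1/2) * V 0 0 1 + (1/2) * V 0 0 2 + 2 * V 0 2 0 := by
    have e := H.h12 0 1 0 (by norm_num)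
    simp only [T0, T1, T2, Nat.reduceAdd, Nat.reduceSub] at e
    linear_combination (1/2) * e + (1/2) * m110
  have m102 : V 1 0 2 = (-3/2) * V 0 1 0 + (-1/2) * V 1 0 0 := by
    have e := H.h02 0 0 1 (by norm_num)
    simp only [T0, T1, T2, Nat.reduceAdd, Nat.reduceSub] at e
    linear_combination (1/3) * e + (-1) * m011
  have m111 : V 1 1 1 = (-2) * V 0 0 1 + 1 * V 0 0 2 + (-1) * V 0 2 0 + (-1) * V 2 0 0 := by
    have e := H.h01 0 0 1 (by norm_num)
    simp only [T0, T1, T2, Nat.reduceAdd, Nat.reduceSub] at e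
    linear_combination 1 * e + (-2) * m110
  have m120 : V 1 2 0 = (13/6) * V 0 1 0 + (1/2) * V 1 0 0 := by
    have e := H.h01 0 1 0 (by norm_num)
    simp only [T0, T1, T2, Nat.reduceAdd, Nat.reduceSub] at e
    linear_combination 1 * e + 1 * m011 + (-1) * m101
  have m201 : V 2 0 1 = (-1) * V 0 0 1 := by
    have e := H.h02 1 0 0 (by norm_num)
    simp only [T0, T1, T2, Nat.reduceAdd, Nat.reduceSub] at e
    linear_combination (1/3) * e + (-1) * m110
  have m210 : V 2 1 0 = (-4/3) * V 0 1 0 := by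
    have e := H.h01 1 0 0 (by norm_num)
    simp only [T0, T1, T2, Nat.reduceAdd, Nat.reduceSub] at e
    linear_combination 1 * e + 2 * m101
  have m013 : V 0 1 3 = (205/24) * V 0 1 0 + (29/8) * V 1 0 0 := by
    have e := H.h12 0 0 2 (by norm_num)
    simp only [T0, T1, T2, Nat.reduceAdd, Nat.reduceSub] at e
    linear_combination (1/2) * e + (7/2) * m012 + (3/2) * m102
  have m022 : V 0 2 2 = (-1/2) * V 0 0 1 + (5/2) * V 0 0 2 + 5 * V 0 2 0 + (-1) * V 2 0 0 + (1/2) * V 0 0 3 := by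
    have e := H.h12 0 1 1 (by norm_num)
    simp only [T0, T1, T2, Nat.reduceAdd, Nat.reduceSub] at e
    linear_combination (1/2) * e + 3 * m021 + 1 * m111
  have m031 : V 0 3 1 = (25/6) * V 0 1 0 + (3/2) * V 1 0 0 + (5/2) * V 0 3 0 := by
    have e := H.h12 0 2 0 (by norm_num)
    simp only [T0, T1, T2, Nat.reduceAdd, Nat.reduceSub] at e
    linear_combination (1/2) * e + 1 * m012 + (1/2) * m120
  have m103 : V 1 0 3 = (-37/9) * V 0 1 0 + (-5/3) * V 1 0 0 := by
    have e := H.h02 0 0 2 (by norm_num)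
    simp only [T0, T1, T2, Nat.reduceAdd, Nat.reduceSub] at e
    linear_combination (1/3) * e + (-4/3) * m012
  have m112 : V 1 1 2 = 9 * V 0 0 1 + (-5) * V 0 0 2 + 4 * V 2 0 0 + 1 * V 0 0 3 := by
    have e := H.h01 0 0 2 (by norm_num)
    simp only [T0, T1, T2, Nat.reduceAdd, Nat.reduceSub] at e
    linear_combination 1 * e + (-2) * m021 + (-4) * m111 + (-2) * m201
  have m121 : V 1 2 1 = (19/12) * V 0 1 0 + (3/4) * V 1 0 0 + (-1) * V 0 3 0 := by
    have e := H.h01 0 1 1 (by norm_num)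
    simp only [T0, T1, T2, Nat.reduceAdd, Nat.reduceSub] at e
    linear_combination 1 * e + 1 * m012 + (-1) * m102 + (-2) * m120 + (-1) * m210
  have m130 : V 1 3 0 = (9/2) * V 0 0 1 + (-3/2) * V 0 0 2 + 4 * V 0 2 0 + 2 * V 2 0 0 := by
    have e := H.h01 0 2 0 (by norm_num)
    simp only [T0, T1, T2, Nat.reduceAdd, Nat.reduceSub] at e
    linear_combination 1 * e + 1 * m021 + (-2) * m111
  have m202 : V 2 0 2 = (8/3) * V 0 0 1 + (-4/3) * V 0 0 2 + (4/3) * V 0 2 0 + (4/3) * V 2 0 0 := by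
    have e := H.h02 1 0 1 (by norm_num)
    simp only [T0, T1, T2, Nat.reduceAdd, Nat.reduceSub] at e
    linear_combination (1/3) * e + (-4/3) * m111
  have m211 : V 2 1 1 = (-5/2) * V 0 1 0 + (-3/2) * V 1 0 0 + (-1) * V 3 0 0 := by
    have e := H.h01 1 0 1 (by norm_num)
    simp only [T0, T1, T2, Nat.reduceAdd, Nat.reduceSub] at e
    linear_combination 1 * e + 2 * m102 + (-1) * m120 + (-2) * m210
  have m220 : V 2 2 0 = (-3) * V 0 0 1 + 2 * V 0 0 2 + (-2) * V 0 2 0 + (-2) * V 2 0 0 := by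
    have e := H.h01 1 1 0 (by norm_num)
    simp only [T0, T1, T2, Nat.reduceAdd, Nat.reduceSub] at e
    linear_combination 1 * e + 2 * m111 + (-1) * m201
  have m301 : V 3 0 1 = (16/9) * V 0 1 0 := by
    have e := H.h02 2 0 0 (by norm_num)
    simp only [T0, T1, T2, Nat.reduceAdd, Nat.reduceSub] at e
    linear_combination (1/3) * e + (-4/3) * m210
  have m310 : V 3 1 0 = (-3) * V 0 0 1 := by
    have e := H.h01 2 0 0 (by norm_num)
    simp only [T0, T1, T2, Nat.reduceAdd, Nat.reduceSub] at e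
    linear_combination 1 * e + 3 * m201
  have m023 : V 0 2 3 = (23/2) * V 0 0 1 + (5/2) * V 0 0 2 + 20 * V 0 2 0 + 2 * V 2 0 0 + (7/2) * V 0 0 3 + (1/2) * V 0 0 4 := by
    have e := H.h12 0 1 2 (by norm_num)
    simp only [T0, T1, T2, Nat.reduceAdd, Nat.reduceSub] at e
    linear_combination (1/2) * e + 4 * m022 + (3/2) * m112
  have m032 : V 0 3 2 = (593/24) * V 0 1 0 + (77/8) * V 1 0 0 + (31/4) * V 0 3 0 := by
    have e := H.h12 0 2 1 (by norm_num)
    simp only [T0, T1, T2, Nat.reduceAdd, Nat.reduceSub] at e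
    linear_combination (1/2) * e + 1 * m013 + (7/2) * m031 + 1 * m121
  have m113 : V 1 1 3 = (-121/2) * V 0 0 1 + (53/2) * V 0 0 2 + (-19) * V 0 2 0 + (-25) * V 2 0 0 + (-15/2) * V 0 0 3 + 1 * V 0 0 4 := by
    have e := H.h01 0 0 3 (by norm_num)
    simp only [T0, T1, T2, Nat.reduceAdd, Nat.reduceSub] at e
    linear_combination 1 * e + (-3) * m022 + (-6) * m112 + (-3) * m202
  have m122 : V 1 2 2 = (215/72) * V 0 1 0 + (55/24) * V 1 0 0 + (-1) * V 0 3 0 + 2 * V 3 0 0 := by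
    have e := H.h01 0 1 2 (by norm_num)
    simp only [T0, T1, T2, Nat.reduceAdd, Nat.reduceSub] at e
    linear_combination 1 * e + 1 * m013 + (-2) * m031 + (-1) * m103 + (-4) * m121 + (-2) * m211
  have m131 : V 1 3 1 = (-49/2) * V 0 0 1 + (27/2) * V 0 0 2 + (-1) * V 0 2 0 + (-11) * V 2 0 0 + (-3/2) * V 0 0 3 + (-1) * V 0 4 0 := by
    have e := H.h01 0 2 1 (by norm_num)
    simp only [T0, T1, T2, Nat.reduceAdd, Nat.reduceSub] at e
    linear_combination 1 * e + 1 * m022 + (-2) * m112 + (-2) * m130 + (-1) * m220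
  have m140 : V 1 4 0 = (-7/12) * V 0 1 0 + (-3/4) * V 1 0 0 + (11/2) * V 0 3 0 := by
    have e := H.h01 0 3 0 (by norm_num)
    simp only [T0, T1, T2, Nat.reduceAdd, Nat.reduceSub] at e
    linear_combination 1 * e + 1 * m031 + (-3) * m121
  have m203 : V 2 0 3 = (-15) * V 0 0 1 + (25/3) * V 0 0 2 + (-20/3) * V 2 0 0 + (-5/3) * V 0 0 3 := by
    have e := H.h02 1 0 2 (by norm_num)
    simp only [T0, T1, T2, Nat.reduceAdd, Nat.reduceSub] at e
    linear_combination (1/3) * e + (-5/3) * m112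
  have m212 : V 2 1 2 = (-89/18) * V 0 1 0 + (7/6) * V 1 0 0 + 2 * V 0 3 0 + 4 * V 3 0 0 := by
    have e := H.h01 1 0 2 (by norm_num)
    simp only [T0, T1, T2, Nat.reduceAdd, Nat.reduceSub] at e
    linear_combination 1 * e + 2 * m103 + (-2) * m121 + (-4) * m211 + (-2) * m301
  have m221 : V 2 2 1 = (119/6) * V 0 0 1 + (-67/6) * V 0 0 2 + (-4/3) * V 0 2 0 + (26/3) * V 2 0 0 + 2 * V 0 0 3 := by
    have e := H.h01 1 1 1 (by norm_num)
    simp only [T0, T1, T2, Nat.reduceAdd, Nat.reduceSub] at e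
    linear_combination 1 * e + 2 * m112 + (-1) * m130 + (-1) * m202 + (-2) * m220 + (-1) * m310
  have m230 : V 2 3 0 = (49/6) * V 0 1 0 + (9/2) * V 1 0 0 + (-2) * V 0 3 0 + 2 * V 3 0 0 := by
    have e := H.h01 1 2 0 (by norm_num)
    simp only [T0, T1, T2, Nat.reduceAdd, Nat.reduceSub] at e
    linear_combination 1 * e + 2 * m121 + (-2) * m211
  have m302 : V 3 0 2 = (25/6) * V 0 1 0 + (5/2) * V 1 0 0 + (5/3) * V 3 0 0 := by
    have e := H.h02 2 0 1 (by norm_num)
    simp only [T0, T1, T2, Nat.reduceAdd, Nat.reduceSub] at e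
    linear_combination (1/3) * e + (-5/3) * m211
  have m311 : V 3 1 1 = 17 * V 0 0 1 + (-6) * V 0 0 2 + 6 * V 0 2 0 + 6 * V 2 0 0 + (-1) * V 4 0 0 := by
    have e := H.h01 2 0 1 (by norm_num)
    simp only [T0, T1, T2, Nat.reduceAdd, Nat.reduceSub] at e
    linear_combination 1 * e + 3 * m202 + (-1) * m220 + (-2) * m310
  have m320 : V 3 2 0 = (-167/18) * V 0 1 0 + (-9/2) * V 1 0 0 + (-3) * V 3 0 0 := by
    have e := H.h01 2 1 0 (by norm_num)
    simp only [T0, T1, T2, Nat.reduceAdd, Nat.reduceSub] at e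
    linear_combination 1 * e + 3 * m211 + (-1) * m301
  have m401 : V 4 0 1 = 5 * V 0 0 1 := by
    have e := H.h02 3 0 0 (by norm_num)
    simp only [T0, T1, T2, Nat.reduceAdd, Nat.reduceSub] at e
    linear_combination (1/3) * e + (-5/3) * m310
  have m410 : V 4 1 0 = (64/9) * V 0 1 0 := by
    have e := H.h01 3 0 0 (by norm_num)
    simp only [T0, T1, T2, Nat.reduceAdd, Nat.reduceSub] at e
    linear_combination 1 * e + 4 * m301
  have m114 : V 1 1 4 = 498 * V 0 0 1 + (-766/3) * V 0 0 2 + 72 * V 0 2 0 + (656/3) * V 2 0 0 + (158/3) * V 0 0 3 + (-10) * V 0 0 4 + 1 * V 0 0 5 := by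
    have e := H.h01 0 0 4 (by norm_num)
    simp only [T0, T1, T2, Nat.reduceAdd, Nat.reduceSub] at e
    linear_combination 1 * e + (-4) * m023 + (-8) * m113 + (-4) * m203
  have m141 : V 1 4 1 = (35/4) * V 0 1 0 + (-1/4) * V 1 0 0 + (7/4) * V 0 3 0 + (-8) * V 3 0 0 + (-1) * V 0 5 0 := by
    have e := H.h01 0 3 1 (by norm_num)
    simp only [T0, T1, T2, Nat.reduceAdd, Nat.reduceSub] at e
    linear_combination 1 * e + 1 * m032 + (-3) * m122 + (-2) * m140 + (-1) * m230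
  have m222 : V 2 2 2 = (-511/3) * V 0 0 1 + (223/3) * V 0 0 2 + (-128/3) * V 0 2 0 + (-68) * V 2 0 0 + (-55/3) * V 0 0 3 + 2 * V 0 0 4 + 2 * V 0 4 0 + 2 * V 4 0 0 := by
    have e := H.h01 1 1 2 (by norm_num)
    simp only [T0, T1, T2, Nat.reduceAdd, Nat.reduceSub] at e
    linear_combination 1 * e + 2 * m113 + (-2) * m131 + (-1) * m203 + (-4) * m221 + (-2) * m311
  have m312 : V 3 1 2 = (-488/3) * V 0 0 1 + (214/3) * V 0 0 2 + (-64/3) * V 0 2 0 + (-184/3) * V 2 0 0 + (-9) * V 0 0 3 + 4 * V 4 0 0 := by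
    have e := H.h01 2 0 2 (by norm_num)
    simp only [T0, T1, T2, Nat.reduceAdd, Nat.reduceSub] at e
    linear_combination 1 * e + 3 * m203 + (-2) * m221 + (-4) * m311 + (-2) * m401
  have m411 : V 4 1 1 = (211/18) * V 0 1 0 + (29/2) * V 1 0 0 + (29/3) * V 3 0 0 + (-1) * V 5 0 0 := by
    have e := H.h01 3 0 1 (by norm_num)
    simp only [T0, T1, T2, Nat.reduceAdd, Nat.reduceSub] at e
    linear_combination 1 * e + 4 * m302 + (-1) * m320 + (-2) * m410
  have c0 : (1/3) * V 0 1 0 + (-3) * V 1 0 0 + (-3) * V 3 0 0 = 0 := by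
    have e := H.h02 1 1 0 (by norm_num)
    simp only [T0, T1, T2, Nat.reduceAdd, Nat.reduceSub] at e
    linear_combination e + (-3) * m120 + 1 * m210 + (-3) * m211
  have c1 : (5/12) * V 0 1 0 + (5/4) * V 1 0 0 + (-1) * V 0 3 0 = 0 := by
    have e := H.h02 0 2 0 (by norm_num)
    simp only [T0, T1, T2, Nat.reduceAdd, Nat.reduceSub] at e
    linear_combination e + 2 * m120 + (-3) * m121
  have c2 : (-6) * V 0 1 0 + 8 * V 1 0 0 + 2 * V 0 3 0 + 13 * V 3 0 0 = 0 := by
    have e := H.h02 1 1 1 (by norm_num)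
    simp only [T0, T1, T2, Nat.reduceAdd, Nat.reduceSub] at e
    linear_combination e + (-4) * m121 + 1 * m211 + (-3) * m212
  have c3 : (439/24) * V 0 1 0 + (79/8) * V 1 0 0 + (13/2) * V 0 3 0 + 6 * V 3 0 0 = 0 := by
    have e := H.h02 0 2 1 (by norm_num)
    simp only [T0, T1, T2, Nat.reduceAdd, Nat.reduceSub] at e
    linear_combination e + (-3) * m031 + 2 * m121 + (-3) * m122
  have c4 : (-55/3) * V 0 1 0 + 21 * V 1 0 0 + 14 * V 3 0 0 + (-3) * V 5 0 0 = 0 := by
    have e := H.h02 3 1 0 (by norm_num)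
    simp only [T0, T1, T2, Nat.reduceAdd, Nat.reduceSub] at e
    linear_combination e + (-5) * m320 + 1 * m410 + (-3) * m411
  have c5 : (343/12) * V 0 1 0 + (9/4) * V 1 0 0 + (-67/4) * V 0 3 0 + (-24) * V 3 0 0 + (-1) * V 0 5 0 = 0 := by
    have e := H.h02 0 4 0 (by norm_num)
    simp only [T0, T1, T2, Nat.reduceAdd, Nat.reduceSub] at e
    linear_combination e + 4 * m140 + (-3) * m141
  have z100 : V 1 0 0 = 0 := by
    linear_combination (-32/3) * c0 + (-2431/342) * c1 + (-130/57) * c2 + (-67/171) * c3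
  have z010 : V 0 1 0 = 0 := by
    linear_combination 6 * c0 + (161/38) * c1 + (24/19) * c2 + (5/19) * c3
  have z300 : V 3 0 0 = 0 := by
    linear_combination 11 * c0 + (144/19) * c1 + (46/19) * c2 + (8/19) * c3
  have z030 : V 0 3 0 = 0 := by
    linear_combination (-65/6) * c0 + (-2777/342) * c1 + (-265/114) * c2 + (-65/171) * c3
  have z500 : V 5 0 0 = 0 := by
    linear_combination (-60) * c0 + (-2296/57) * c1 + (-706/57) * c2 + (-136/57) * c3 + (-1/3) * c4
  have z050 : V 0 5 0 = 0 := by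
    linear_combination (1559/24) * c0 + (81017/1368) * c1 + (5383/456) * c2 + (1985/684) * c3 + (-1) * c5
  have c6 : (-7) * V 0 0 1 + 3 * V 0 0 2 + (-1) * V 0 2 0 + (-3) * V 2 0 0 = 0 := by
    have e := H.h02 0 1 0 (by norm_num)
    simp only [T0, T1, T2, Nat.reduceAdd, Nat.reduceSub] at e
    linear_combination e + 1 * m110 + (-3) * m111
  have c7 : (61/2) * V 0 0 1 + (-29/2) * V 0 0 2 + 7 * V 0 2 0 + 13 * V 2 0 0 + 3 * V 0 0 3 = 0 := by
    have e := H.h02 0 1 1 (by norm_num)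
    simp only [T0, T1, T2, Nat.reduceAdd, Nat.reduceSub] at e
    linear_combination e + (-3) * m021 + 1 * m111 + (-3) * m112
  have c8 : 42 * V 0 0 1 + (-10) * V 0 0 2 + 10 * V 0 2 0 + 10 * V 2 0 0 + (-3) * V 4 0 0 = 0 := by
    have e := H.h02 2 1 0 (by norm_num)
    simp only [T0, T1, T2, Nat.reduceAdd, Nat.reduceSub] at e
    linear_combination e + (-4) * m220 + 1 * m310 + (-3) * m311
  have c9 : 79 * V 0 0 1 + (-42) * V 0 0 2 + 12 * V 0 2 0 + 36 * V 2 0 0 + 6 * V 0 0 3 = 0 := by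
    have e := H.h02 1 2 0 (by norm_num)
    simp only [T0, T1, T2, Nat.reduceAdd, Nat.reduceSub] at e
    linear_combination e + (-3) * m130 + 2 * m220 + (-3) * m221
  have c10 : (-87) * V 0 0 1 + 45 * V 0 0 2 + (-15) * V 0 2 0 + (-39) * V 2 0 0 + (-9/2) * V 0 0 3 + (-1) * V 0 4 0 = 0 := by
    have e := H.h02 0 3 0 (by norm_num)
    simp only [T0, T1, T2, Nat.reduceAdd, Nat.reduceSub] at e
    linear_combination e + 3 * m130 + (-3) * m131
  have c11 : (-385/2) * V 0 0 1 + (189/2) * V 0 0 2 + (-37) * V 0 2 0 + (-83) * V 2 0 0 + (-43/2) * V 0 0 3 + 3 * V 0 0 4 = 0 := by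
    have e := H.h02 0 1 2 (by norm_num)
    simp only [T0, T1, T2, Nat.reduceAdd, Nat.reduceSub] at e
    linear_combination e + (-4) * m022 + 1 * m112 + (-3) * m113
  have c12 : (-2435/6) * V 0 0 1 + (985/6) * V 0 0 2 + (-230/3) * V 0 2 0 + (-440/3) * V 2 0 0 + (-17) * V 0 0 3 + 13 * V 4 0 0 = 0 := by
    have e := H.h02 2 1 1 (by norm_num)
    simp only [T0, T1, T2, Nat.reduceAdd, Nat.reduceSub] at e
    linear_combination e + (-5) * m221 + 1 * m311 + (-3) * m312
  have c13 : (-1946/3) * V 0 0 1 + (898/3) * V 0 0 2 + (-388/3) * V 0 2 0 + (-796/3) * V 2 0 0 + (-65) * V 0 0 3 + 6 * V 0 0 4 + 2 * V 0 4 0 + 6 * V 4 0 0 = 0 := by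
    have e := H.h02 1 2 1 (by norm_num)
    simp only [T0, T1, T2, Nat.reduceAdd, Nat.reduceSub] at e
    linear_combination e + (-4) * m131 + 2 * m221 + (-3) * m222
  have c14 : 1612 * V 0 0 1 + (-780) * V 0 0 2 + 335 * V 0 2 0 + 691 * V 2 0 0 + 183 * V 0 0 3 + (-57/2) * V 0 0 4 + 3 * V 0 0 5 = 0 := by
    have e := H.h02 0 1 3 (by norm_num)
    simp only [T0, T1, T2, Nat.reduceAdd, Nat.reduceSub] at e
    linear_combination e + (-5) * m023 + 1 * m113 + (-3) * m114
  have z200 : V 2 0 0 = 0 := by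
    linear_combination (-5/2) * c6 + (-967/138) * c7 + (-785/138) * c8 + (-817/138) * c9 + (-68/23) * c10 + (68/23) * c11 + (-29/46) * c12 + (-34/23) * c13
  have z400 : V 4 0 0 = 0 := by
    linear_combination (158/23) * c7 + (221/23) * c8 + (194/23) * c9 + (64/23) * c10 + (-64/23) * c11 + (38/23) * c12 + (32/23) * c13
  have z020 : V 0 2 0 = 0 := by
    linear_combination (1/2) * c6 + (673/138) * c7 + (-63/46) * c8 + (1/46) * c9 + (40/23) * c10 + (-40/23) * c11 + (-33/46) * c12 + (20/23) * c13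
  have z040 : V 0 4 0 = 0 := by
    linear_combination (-465/23) * c7 + (31/23) * c8 + (-106/23) * c9 + (-200/23) * c10 + (177/23) * c11 + (48/23) * c12 + (-177/46) * c13
  have z001 : V 0 0 1 = 0 := by
    linear_combination (-44/69) * c7 + (48/23) * c8 + (31/23) * c9 + (-4/23) * c10 + (4/23) * c11 + (12/23) * c12 + (-2/23) * c13
  have z002 : V 0 0 2 = 0 := by
    linear_combination (-2) * c6 + (-158/23) * c7 + (-88/69) * c8 + (-191/69) * c9 + (-64/23) * c10 + (64/23) * c11 + (8/23) * c12 + (-32/23) * c13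
  have z003 : V 0 0 3 = 0 := by
    linear_combination (-1532/207) * c7 + (32/69) * c8 + (-34/23) * c9 + (-202/69) * c10 + (202/69) * c11 + (18/23) * c12 + (-101/69) * c13
  have z004 : V 0 0 4 = 0 := by
    linear_combination (-7009/621) * c7 + (650/207) * c8 + (-91/207) * c9 + (-1001/207) * c10 + (1070/207) * c11 + (127/69) * c12 + (-1001/414) * c13
  have z005 : V 0 0 5 = 0 := by
    linear_combination (-36985/1242) * c7 + (2426/207) * c8 + (451/138) * c9 + (-4391/414) * c10 + (2851/207) * c11 + (237/46) * c12 + (-4391/828) * c13 + (1/3) * c14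
  exact ⟨z100, z200, z300, z400, z500, z010, z020, z030, z040, z050, z001, z002, z003, z004, z005⟩

theorem caseD {V : ℕ → ℕ → ℕ → ℝ} (H : Eqs (-1) (-1) 1 V) : Zer V := by
  have m011 : V 0 1 1 = (-3/2) * V 0 1 0 + (-1/2) * V 1 0 0 := by
    have e := H.h12 0 0 0 (by norm_num)
    simp only [T0, T1, T2, Nat.reduceAdd, Nat.reduceSub] at e
    linear_combination (1/2) * e
  have m101 : V 1 0 1 = (2/3) * V 0 1 0 := by
    have e := H.h02 0 0 0 (by norm_num)
    simp only [T0, T1, T2, Nat.reduceAdd, Nat.reduceSub] at e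
    linear_combination (1/3) * e
  have m110 : V 1 1 0 = 1 * V 0 0 1 := by
    have e := H.h01 0 0 0 (by norm_num)
    simp only [T0, T1, T2, Nat.reduceAdd, Nat.reduceSub] at e
    linear_combination 1 * e
  have m012 : V 0 1 2 = (37/12) * V 0 1 0 + (5/4) * V 1 0 0 := by
    have e := H.h12 0 0 1 (by norm_num)
    simp only [T0, T1, T2, Nat.reduceAdd, Nat.reduceSub] at e
    linear_combination (1/2) * e + (-5/2) * m011 + (-1) * m101
  have m021 : V 0 2 1 = (-1/2) * V 0 0 1 + (1/2) * V 0 0 2 + (-2) * V 0 2 0 := by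
    have e := H.h12 0 1 0 (by norm_num)
    simp only [T0, T1, T2, Nat.reduceAdd, Nat.reduceSub] at e
    linear_combination (1/2) * e + (-1/2) * m110
  have m102 : V 1 0 2 = (-3/2) * V 0 1 0 + (-1/2) * V 1 0 0 := by
    have e := H.h02 0 0 1 (by norm_num)
    simp only [T0, T1, T2, Nat.reduceAdd, Nat.reduceSub] at e
    linear_combination (1/3) * e + 1 * m011
  have m111 : V 1 1 1 = 2 * V 0 0 1 + 1 * V 0 0 2 + 1 * V 0 2 0 + 1 * V 2 0 0 := by
    have e := H.h01 0 0 1 (by norm_num)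
    simp only [T0, T1, T2, Nat.reduceAdd, Nat.reduceSub] at e
    linear_combination 1 * e + 2 * m110
  have m120 : V 1 2 0 = (-13/6) * V 0 1 0 + (-1/2) * V 1 0 0 := by
    have e := H.h01 0 1 0 (by norm_num)
    simp only [T0, T1, T2, Nat.reduceAdd, Nat.reduceSub] at e
    linear_combination 1 * e + 1 * m011 + (-1) * m101
  have m201 : V 2 0 1 = 1 * V 0 0 1 := by
    have e := H.h02 1 0 0 (by norm_num)
    simp only [T0, T1, T2, Nat.reduceAdd, Nat.reduceSub] at e
    linear_combination (1/3) * e + 1 * m110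
  have m210 : V 2 1 0 = (4/3) * V 0 1 0 := by
    have e := H.h01 1 0 0 (by norm_num)
    simp only [T0, T1, T2, Nat.reduceAdd, Nat.reduceSub] at e
    linear_combination 1 * e + 2 * m101
  have m013 : V 0 1 3 = (-205/24) * V 0 1 0 + (-29/8) * V 1 0 0 := by
    have e := H.h12 0 0 2 (by norm_num)
    simp only [T0, T1, T2, Nat.reduceAdd, Nat.reduceSub] at e
    linear_combination (1/2) * e + (-7/2) * m012 + (-3/2) * m102
  have m022 : V 0 2 2 = (-1/2) * V 0 0 1 + (-5/2) * V 0 0 2 + 5 * V 0 2 0 + (-1) * V 2 0 0 + (1/2) * V 0 0 3 := by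
    have e := H.h12 0 1 1 (by norm_num)
    simp only [T0, T1, T2, Nat.reduceAdd, Nat.reduceSub] at e
    linear_combination (1/2) * e + (-3) * m021 + (-1) * m111
  have m031 : V 0 3 1 = (25/6) * V 0 1 0 + (3/2) * V 1 0 0 + (-5/2) * V 0 3 0 := by
    have e := H.h12 0 2 0 (by norm_num)
    simp only [T0, T1, T2, Nat.reduceAdd, Nat.reduceSub] at e
    linear_combination (1/2) * e + 1 * m012 + (-1/2) * m120
  have m103 : V 1 0 3 = (37/9) * V 0 1 0 + (5/3) * V 1 0 0 := by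
    have e := H.h02 0 0 2 (by norm_num)
    simp only [T0, T1, T2, Nat.reduceAdd, Nat.reduceSub] at e
    linear_combination (1/3) * e + (4/3) * m012
  have m112 : V 1 1 2 = 9 * V 0 0 1 + 5 * V 0 0 2 + 4 * V 2 0 0 + 1 * V 0 0 3 := by
    have e := H.h01 0 0 2 (by norm_num)
    simp only [T0, T1, T2, Nat.reduceAdd, Nat.reduceSub] at e
    linear_combination 1 * e + 2 * m021 + 4 * m111 + 2 * m201
  have m121 : V 1 2 1 = (19/12) * V 0 1 0 + (3/4) * V 1 0 0 + 1 * V 0 3 0 := by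
    have e := H.h01 0 1 1 (by norm_num)
    simp only [T0, T1, T2, Nat.reduceAdd, Nat.reduceSub] at e
    linear_combination 1 * e + 1 * m012 + (-1) * m102 + 2 * m120 + 1 * m210
  have m130 : V 1 3 0 = (-9/2) * V 0 0 1 + (-3/2) * V 0 0 2 + (-4) * V 0 2 0 + (-2) * V 2 0 0 := by
    have e := H.h01 0 2 0 (by norm_num)
    simp only [T0, T1, T2, Nat.reduceAdd, Nat.reduceSub] at e
    linear_combination 1 * e + 1 * m021 + (-2) * m111
  have m202 : V 2 0 2 = (8/3) * V 0 0 1 + (4/3) * V 0 0 2 + (4/3) * V 0 2 0 + (4/3) * V 2 0 0 := by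
    have e := H.h02 1 0 1 (by norm_num)
    simp only [T0, T1, T2, Nat.reduceAdd, Nat.reduceSub] at e
    linear_combination (1/3) * e + (4/3) * m111
  have m211 : V 2 1 1 = (-5/2) * V 0 1 0 + (-3/2) * V 1 0 0 + 1 * V 3 0 0 := by
    have e := H.h01 1 0 1 (by norm_num)
    simp only [T0, T1, T2, Nat.reduceAdd, Nat.reduceSub] at e
    linear_combination 1 * e + 2 * m102 + 1 * m120 + 2 * m210
  have m220 : V 2 2 0 = 3 * V 0 0 1 + 2 * V 0 0 2 + 2 * V 0 2 0 + 2 * V 2 0 0 := by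
    have e := H.h01 1 1 0 (by norm_num)
    simp only [T0, T1, T2, Nat.reduceAdd, Nat.reduceSub] at e
    linear_combination 1 * e + 2 * m111 + (-1) * m201
  have m301 : V 3 0 1 = (16/9) * V 0 1 0 := by
    have e := H.h02 2 0 0 (by norm_num)
    simp only [T0, T1, T2, Nat.reduceAdd, Nat.reduceSub] at e
    linear_combination (1/3) * e + (4/3) * m210
  have m310 : V 3 1 0 = 3 * V 0 0 1 := by
    have e := H.h01 2 0 0 (by norm_num)
    simp only [T0, T1, T2, Nat.reduceAdd, Nat.reduceSub] at e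
    linear_combination 1 * e + 3 * m201
  have m023 : V 0 2 3 = (-23/2) * V 0 0 1 + (5/2) * V 0 0 2 + (-20) * V 0 2 0 + (-2) * V 2 0 0 + (-7/2) * V 0 0 3 + (1/2) * V 0 0 4 := by
    have e := H.h12 0 1 2 (by norm_num)
    simp only [T0, T1, T2, Nat.reduceAdd, Nat.reduceSub] at e
    linear_combination (1/2) * e + (-4) * m022 + (-3/2) * m112
  have m032 : V 0 3 2 = (-593/24) * V 0 1 0 + (-77/8) * V 1 0 0 + (31/4) * V 0 3 0 := by
    have e := H.h12 0 2 1 (by norm_num)
    simp only [T0, T1, T2, Nat.reduceAdd, Nat.reduceSub] at e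
    linear_combination (1/2) * e + 1 * m013 + (-7/2) * m031 + (-1) * m121
  have m113 : V 1 1 3 = (121/2) * V 0 0 1 + (53/2) * V 0 0 2 + 19 * V 0 2 0 + 25 * V 2 0 0 + (15/2) * V 0 0 3 + 1 * V 0 0 4 := by
    have e := H.h01 0 0 3 (by norm_num)
    simp only [T0, T1, T2, Nat.reduceAdd, Nat.reduceSub] at e
    linear_combination 1 * e + 3 * m022 + 6 * m112 + 3 * m202
  have m122 : V 1 2 2 = (-215/72) * V 0 1 0 + (-55/24) * V 1 0 0 + (-1) * V 0 3 0 + 2 * V 3 0 0 := by
    have e := H.h01 0 1 2 (by norm_num)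
    simp only [T0, T1, T2, Nat.reduceAdd, Nat.reduceSub] at e
    linear_combination 1 * e + 1 * m013 + 2 * m031 + (-1) * m103 + 4 * m121 + 2 * m211
  have m131 : V 1 3 1 = (-49/2) * V 0 0 1 + (-27/2) * V 0 0 2 + (-1) * V 0 2 0 + (-11) * V 2 0 0 + (-3/2) * V 0 0 3 + 1 * V 0 4 0 := by
    have e := H.h01 0 2 1 (by norm_num)
    simp only [T0, T1, T2, Nat.reduceAdd, Nat.reduceSub] at e
    linear_combination 1 * e + 1 * m022 + (-2) * m112 + 2 * m130 + 1 * m220
  have m140 : V 1 4 0 = (-7/12) * V 0 1 0 + (-3/4) * V 1 0 0 + (-11/2) * V 0 3 0 := by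
    have e := H.h01 0 3 0 (by norm_num)
    simp only [T0, T1, T2, Nat.reduceAdd, Nat.reduceSub] at e
    linear_combination 1 * e + 1 * m031 + (-3) * m121
  have m203 : V 2 0 3 = 15 * V 0 0 1 + (25/3) * V 0 0 2 + (20/3) * V 2 0 0 + (5/3) * V 0 0 3 := by
    have e := H.h02 1 0 2 (by norm_num)
    simp only [T0, T1, T2, Nat.reduceAdd, Nat.reduceSub] at e
    linear_combination (1/3) * e + (5/3) * m112
  have m212 : V 2 1 2 = (89/18) * V 0 1 0 + (-7/6) * V 1 0 0 + 2 * V 0 3 0 + 4 * V 3 0 0 := by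
    have e := H.h01 1 0 2 (by norm_num)
    simp only [T0, T1, T2, Nat.reduceAdd, Nat.reduceSub] at e
    linear_combination 1 * e + 2 * m103 + 2 * m121 + 4 * m211 + 2 * m301
  have m221 : V 2 2 1 = (119/6) * V 0 0 1 + (67/6) * V 0 0 2 + (-4/3) * V 0 2 0 + (26/3) * V 2 0 0 + 2 * V 0 0 3 := by
    have e := H.h01 1 1 1 (by norm_num)
    simp only [T0, T1, T2, Nat.reduceAdd, Nat.reduceSub] at e
    linear_combination 1 * e + 2 * m112 + 1 * m130 + (-1) * m202 + 2 * m220 + 1 * m310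
  have m230 : V 2 3 0 = (49/6) * V 0 1 0 + (9/2) * V 1 0 0 + 2 * V 0 3 0 + (-2) * V 3 0 0 := by
    have e := H.h01 1 2 0 (by norm_num)
    simp only [T0, T1, T2, Nat.reduceAdd, Nat.reduceSub] at e
    linear_combination 1 * e + 2 * m121 + (-2) * m211
  have m302 : V 3 0 2 = (-25/6) * V 0 1 0 + (-5/2) * V 1 0 0 + (5/3) * V 3 0 0 := by
    have e := H.h02 2 0 1 (by norm_num)
    simp only [T0, T1, T2, Nat.reduceAdd, Nat.reduceSub] at e
    linear_combination (1/3) * e + (5/3) * m211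
  have m311 : V 3 1 1 = 17 * V 0 0 1 + 6 * V 0 0 2 + 6 * V 0 2 0 + 6 * V 2 0 0 + 1 * V 4 0 0 := by
    have e := H.h01 2 0 1 (by norm_num)
    simp only [T0, T1, T2, Nat.reduceAdd, Nat.reduceSub] at e
    linear_combination 1 * e + 3 * m202 + 1 * m220 + 2 * m310
  have m320 : V 3 2 0 = (-167/18) * V 0 1 0 + (-9/2) * V 1 0 0 + 3 * V 3 0 0 := by
    have e := H.h01 2 1 0 (by norm_num)
    simp only [T0, T1, T2, Nat.reduceAdd, Nat.reduceSub] at e
    linear_combination 1 * e + 3 * m211 + (-1) * m301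
  have m401 : V 4 0 1 = 5 * V 0 0 1 := by
    have e := H.h02 3 0 0 (by norm_num)
    simp only [T0, T1, T2, Nat.reduceAdd, Nat.reduceSub] at e
    linear_combination (1/3) * e + (5/3) * m310
  have m410 : V 4 1 0 = (64/9) * V 0 1 0 := by
    have e := H.h01 3 0 0 (by norm_num)
    simp only [T0, T1, T2, Nat.reduceAdd, Nat.reduceSub] at e
    linear_combination 1 * e + 4 * m301
  have m114 : V 1 1 4 = 498 * V 0 0 1 + (766/3) * V 0 0 2 + 72 * V 0 2 0 + (656/3) * V 2 0 0 + (158/3) * V 0 0 3 + 10 * V 0 0 4 + 1 * V 0 0 5 := by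
    have e := H.h01 0 0 4 (by norm_num)
    simp only [T0, T1, T2, Nat.reduceAdd, Nat.reduceSub] at e
    linear_combination 1 * e + 4 * m023 + 8 * m113 + 4 * m203
  have m141 : V 1 4 1 = (-35/4) * V 0 1 0 + (1/4) * V 1 0 0 + (7/4) * V 0 3 0 + (-8) * V 3 0 0 + 1 * V 0 5 0 := by
    have e := H.h01 0 3 1 (by norm_num)
    simp only [T0, T1, T2, Nat.reduceAdd, Nat.reduceSub] at e
    linear_combination 1 * e + 1 * m032 + (-3) * m122 + 2 * m140 + 1 * m230
  have m222 : V 2 2 2 = (511/3) * V 0 0 1 + (223/3) * V 0 0 2 + (128/3) * V 0 2 0 + 68 * V 2 0 0 + (55/3) * V 0 0 3 + 2 * V 0 0 4 + 2 * V 0 4 0 + 2 * V 4 0 0 := by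
    have e := H.h01 1 1 2 (by norm_num)
    simp only [T0, T1, T2, Nat.reduceAdd, Nat.reduceSub] at e
    linear_combination 1 * e + 2 * m113 + 2 * m131 + (-1) * m203 + 4 * m221 + 2 * m311
  have m312 : V 3 1 2 = (488/3) * V 0 0 1 + (214/3) * V 0 0 2 + (64/3) * V 0 2 0 + (184/3) * V 2 0 0 + 9 * V 0 0 3 + 4 * V 4 0 0 := by
    have e := H.h01 2 0 2 (by norm_num)
    simp only [T0, T1, T2, Nat.reduceAdd, Nat.reduceSub] at e
    linear_combination 1 * e + 3 * m203 + 2 * m221 + 4 * m311 + 2 * m401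
  have m411 : V 4 1 1 = (-211/18) * V 0 1 0 + (-29/2) * V 1 0 0 + (29/3) * V 3 0 0 + 1 * V 5 0 0 := by
    have e := H.h01 3 0 1 (by norm_num)
    simp only [T0, T1, T2, Nat.reduceAdd, Nat.reduceSub] at e
    linear_combination 1 * e + 4 * m302 + 1 * m320 + 2 * m410
  have c0 : (1/3) * V 0 1 0 + (-3) * V 1 0 0 + 3 * V 3 0 0 = 0 := by
    have e := H.h02 1 1 0 (by norm_num)
    simp only [T0, T1, T2, Nat.reduceAdd, Nat.reduceSub] at e
    linear_combination e + 3 * m120 + (-1) * m210 + (-3) * m211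
  have c1 : (5/12) * V 0 1 0 + (5/4) * V 1 0 0 + 1 * V 0 3 0 = 0 := by
    have e := H.h02 0 2 0 (by norm_num)
    simp only [T0, T1, T2, Nat.reduceAdd, Nat.reduceSub] at e
    linear_combination e + (-2) * m120 + (-3) * m121
  have c2 : 6 * V 0 1 0 + (-8) * V 1 0 0 + 2 * V 0 3 0 + 13 * V 3 0 0 = 0 := by
    have e := H.h02 1 1 1 (by norm_num)
    simp only [T0, T1, T2, Nat.reduceAdd, Nat.reduceSub] at e
    linear_combination e + 4 * m121 + (-1) * m211 + (-3) * m212
  have c3 : (-439/24) * V 0 1 0 + (-79/8) * V 1 0 0 + (13/2) * V 0 3 0 + 6 * V 3 0 0 = 0 := by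
    have e := H.h02 0 2 1 (by norm_num)
    simp only [T0, T1, T2, Nat.reduceAdd, Nat.reduceSub] at e
    linear_combination e + 3 * m031 + (-2) * m121 + (-3) * m122
  have c4 : (55/3) * V 0 1 0 + (-21) * V 1 0 0 + 14 * V 3 0 0 + 3 * V 5 0 0 = 0 := by
    have e := H.h02 3 1 0 (by norm_num)
    simp only [T0, T1, T2, Nat.reduceAdd, Nat.reduceSub] at e
    linear_combination e + 5 * m320 + (-1) * m410 + (-3) * m411
  have c5 : (-343/12) * V 0 1 0 + (-9/4) * V 1 0 0 + (-67/4) * V 0 3 0 + (-24) * V 3 0 0 + 1 * V 0 5 0 = 0 := by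
    have e := H.h02 0 4 0 (by norm_num)
    simp only [T0, T1, T2, Nat.reduceAdd, Nat.reduceSub] at e
    linear_combination e + (-4) * m140 + (-3) * m141
  have z100 : V 1 0 0 = 0 := by
    linear_combination (-32/3) * c0 + (-2431/342) * c1 + (130/57) * c2 + (67/171) * c3
  have z010 : V 0 1 0 = 0 := by
    linear_combination 6 * c0 + (161/38) * c1 + (-24/19) * c2 + (-5/19) * c3
  have z300 : V 3 0 0 = 0 := by
    linear_combination (-11) * c0 + (-144/19) * c1 + (46/19) * c2 + (8/19) * c3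
  have z030 : V 0 3 0 = 0 := by
    linear_combination (65/6) * c0 + (2777/342) * c1 + (-265/114) * c2 + (-65/171) * c3
  have z500 : V 5 0 0 = 0 := by
    linear_combination (-60) * c0 + (-2296/57) * c1 + (706/57) * c2 + (136/57) * c3 + (1/3) * c4
  have z050 : V 0 5 0 = 0 := by
    linear_combination (1559/24) * c0 + (81017/1368) * c1 + (-5383/456) * c2 + (-1985/684) * c3 + 1 * c5
  have c6 : 7 * V 0 0 1 + 3 * V 0 0 2 + 1 * V 0 2 0 + 3 * V 2 0 0 = 0 := by
    have e := H.h02 0 1 0 (by norm_num)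
    simp only [T0, T1, T2, Nat.reduceAdd, Nat.reduceSub] at e
    linear_combination e + (-1) * m110 + (-3) * m111
  have c7 : (61/2) * V 0 0 1 + (29/2) * V 0 0 2 + 7 * V 0 2 0 + 13 * V 2 0 0 + 3 * V 0 0 3 = 0 := by
    have e := H.h02 0 1 1 (by norm_num)
    simp only [T0, T1, T2, Nat.reduceAdd, Nat.reduceSub] at e
    linear_combination e + 3 * m021 + (-1) * m111 + (-3) * m112
  have c8 : 42 * V 0 0 1 + 10 * V 0 0 2 + 10 * V 0 2 0 + 10 * V 2 0 0 + 3 * V 4 0 0 = 0 := by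
    have e := H.h02 2 1 0 (by norm_num)
    simp only [T0, T1, T2, Nat.reduceAdd, Nat.reduceSub] at e
    linear_combination e + 4 * m220 + (-1) * m310 + (-3) * m311
  have c9 : 79 * V 0 0 1 + 42 * V 0 0 2 + 12 * V 0 2 0 + 36 * V 2 0 0 + 6 * V 0 0 3 = 0 := by
    have e := H.h02 1 2 0 (by norm_num)
    simp only [T0, T1, T2, Nat.reduceAdd, Nat.reduceSub] at e
    linear_combination e + 3 * m130 + (-2) * m220 + (-3) * m221
  have c10 : (-87) * V 0 0 1 + (-45) * V 0 0 2 + (-15) * V 0 2 0 + (-39) * V 2 0 0 + (-9/2) * V 0 0 3 + 1 * V 0 4 0 = 0 := by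
    have e := H.h02 0 3 0 (by norm_num)
    simp only [T0, T1, T2, Nat.reduceAdd, Nat.reduceSub] at e
    linear_combination e + (-3) * m130 + (-3) * m131
  have c11 : (385/2) * V 0 0 1 + (189/2) * V 0 0 2 + 37 * V 0 2 0 + 83 * V 2 0 0 + (43/2) * V 0 0 3 + 3 * V 0 0 4 = 0 := by
    have e := H.h02 0 1 2 (by norm_num)
    simp only [T0, T1, T2, Nat.reduceAdd, Nat.reduceSub] at e
    linear_combination e + 4 * m022 + (-1) * m112 + (-3) * m113
  have c12 : (2435/6) * V 0 0 1 + (985/6) * V 0 0 2 + (230/3) * V 0 2 0 + (440/3) * V 2 0 0 + 17 * V 0 0 3 + 13 * V 4 0 0 = 0 := by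
    have e := H.h02 2 1 1 (by norm_num)
    simp only [T0, T1, T2, Nat.reduceAdd, Nat.reduceSub] at e
    linear_combination e + 5 * m221 + (-1) * m311 + (-3) * m312
  have c13 : (1946/3) * V 0 0 1 + (898/3) * V 0 0 2 + (388/3) * V 0 2 0 + (796/3) * V 2 0 0 + 65 * V 0 0 3 + 6 * V 0 0 4 + 2 * V 0 4 0 + 6 * V 4 0 0 = 0 := by
    have e := H.h02 1 2 1 (by norm_num)
    simp only [T0, T1, T2, Nat.reduceAdd, Nat.reduceSub] at e
    linear_combination e + 4 * m131 + (-2) * m221 + (-3) * m222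
  have c14 : 1612 * V 0 0 1 + 780 * V 0 0 2 + 335 * V 0 2 0 + 691 * V 2 0 0 + 183 * V 0 0 3 + (57/2) * V 0 0 4 + 3 * V 0 0 5 = 0 := by
    have e := H.h02 0 1 3 (by norm_num)
    simp only [T0, T1, T2, Nat.reduceAdd, Nat.reduceSub] at e
    linear_combination e + 5 * m023 + (-1) * m113 + (-3) * m114
  have z200 : V 2 0 0 = 0 := by
    linear_combination (5/2) * c6 + (-967/138) * c7 + (-785/138) * c8 + (-817/138) * c9 + (-68/23) * c10 + (-68/23) * c11 + (29/46) * c12 + (34/23) * c13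
  have z400 : V 4 0 0 = 0 := by
    linear_combination (-158/23) * c7 + (-221/23) * c8 + (-194/23) * c9 + (-64/23) * c10 + (-64/23) * c11 + (38/23) * c12 + (32/23) * c13
  have z020 : V 0 2 0 = 0 := by
    linear_combination (-1/2) * c6 + (673/138) * c7 + (-63/46) * c8 + (1/46) * c9 + (40/23) * c10 + (40/23) * c11 + (33/46) * c12 + (-20/23) * c13
  have z040 : V 0 4 0 = 0 := by
    linear_combination (465/23) * c7 + (-31/23) * c8 + (106/23) * c9 + (200/23) * c10 + (177/23) * c11 + (48/23) * c12 + (-177/46) * c13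
  have z001 : V 0 0 1 = 0 := by
    linear_combination (-44/69) * c7 + (48/23) * c8 + (31/23) * c9 + (-4/23) * c10 + (-4/23) * c11 + (-12/23) * c12 + (2/23) * c13
  have z002 : V 0 0 2 = 0 := by
    linear_combination (-2) * c6 + (158/23) * c7 + (88/69) * c8 + (191/69) * c9 + (64/23) * c10 + (64/23) * c11 + (8/23) * c12 + (-32/23) * c13
  have z003 : V 0 0 3 = 0 := by
    linear_combination (-1532/207) * c7 + (32/69) * c8 + (-34/23) * c9 + (-202/69) * c10 + (-202/69) * c11 + (-18/23) * c12 + (101/69) * c13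
  have z004 : V 0 0 4 = 0 := by
    linear_combination (7009/621) * c7 + (-650/207) * c8 + (91/207) * c9 + (1001/207) * c10 + (1070/207) * c11 + (127/69) * c12 + (-1001/414) * c13
  have z005 : V 0 0 5 = 0 := by
    linear_combination (-36985/1242) * c7 + (2426/207) * c8 + (451/138) * c9 + (-4391/414) * c10 + (-2851/207) * c11 + (-237/46) * c12 + (4391/828) * c13 + (1/3) * c14
  exact ⟨z100, z200, z300, z400, z500, z010, z020, z030, z040, z050, z001, z002, z003, z004, z005⟩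

/-! ### The equations of the jets -/

/-- The values of `v` at the sorted words. -/
def val (v : Jet (Fin 3) ℝ) (a b c : ℕ) : ℝ := v (wd a b c)

theorem val_cons {v : Jet (Fin 3) ℝ} (hv : Sym v) {w : List (Fin 3)} {A B C : ℕ}
    (h0 : w.count 0 = A) (h1 : w.count 1 = B) (h2 : w.count 2 = C) :
    (v (1 :: w) = val v A (B + 1) C ∧ v (2 :: w) = val v A B (C + 1)) ∧
    (v (1 :: w.erase 2) = val v A (B + 1) (C - 1) ∧ v (0 :: w.erase 2) = val v (A + 1) B (C - 1)) ∧
    (v (2 :: w.erase 0) = val v (A - 1) B (C + 1) ∧ v (2 :: w.erase 1) = val v A (B - 1) (C + 1)) ∧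
    (v (1 :: w.erase 0) = val v (A - 1) (B + 1) C ∧
      (B ≠ 0 → v (1 :: w.erase 1) = val v A B C)) := by
  refine ⟨⟨?_, ?_⟩, ⟨?_, ?_⟩, ⟨?_, ?_⟩, ⟨?_, fun hB => ?_⟩⟩
  all_goals
    refine sym_eq hv _ _ _ _ ?_ ?_ ?_ <;>
    simp [List.count_cons, List.count_erase, h0, h1, h2]
  omega

theorem lin_vals (e : Fin 3 → ℝ) (h1 : e 1 * e 1 = 1) :
    (lin e b3 0 0 0 = 0 ∧ lin e b3 0 0 1 = 0 ∧ lin e b3 0 0 2 = 0 ∧
      lin e b3 1 0 0 = 0 ∧ lin e b3 1 0 1 = 0 ∧ lin e b3 1 0 2 = -(e 0 * e 2) ∧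
      lin e b3 2 0 0 = 0 ∧ lin e b3 2 0 1 = 0 ∧ lin e b3 2 0 2 = 0) ∧
    (lin e b3 0 1 0 = 0 ∧ lin e b3 0 1 1 = 0 ∧ lin e b3 0 1 2 = -(e 1 * e 2) ∧
      lin e b3 1 1 0 = 0 ∧ lin e b3 1 1 1 = 0 ∧ lin e b3 1 1 2 = -(2 * (e 1 * e 2)) ∧
      lin e b3 2 1 0 = e 0 * e 1 ∧ lin e b3 2 1 1 = 1 ∧ lin e b3 2 1 2 = 0) ∧
    (lin e b3 0 2 0 = 0 ∧ lin e b3 0 2 1 = 0 ∧ lin e b3 0 2 2 = 0 ∧
      lin e b3 1 2 0 = e 0 * e 2 ∧ lin e b3 1 2 1 = e 1 * e 2 ∧ lin e b3 1 2 2 = 0 ∧
      lin e b3 2 2 0 = 0 ∧ lin e b3 2 2 1 = 0 ∧ lin e b3 2 2 2 = 0) := by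
  refine ⟨⟨?_, ?_, ?_, ?_, ?_, ?_, ?_, ?_, ?_⟩, ⟨?_, ?_, ?_, ?_, ?_, ?_, ?_, ?_, ?_⟩,
    ⟨?_, ?_, ?_, ?_, ?_, ?_, ?_, ?_, ?_⟩⟩
  all_goals
    simp [lin, b3, h1]
  all_goals ring

theorem th_vals (e : Fin 3 → ℝ) (he : e 1 * e 1 = 1) {v : Jet (Fin 3) ℝ} (hv : Sym v)
    {w : List (Fin 3)} {A B C : ℕ}
    (h0 : w.count 0 = A) (h1 : w.count 1 = B) (h2 : w.count 2 = C) :
    th (Kjet ![0, 1, 3] (lin e b3)) v 0 w = T0 (e 0 * e 2) (val v) A B C ∧
    th (Kjet ![0, 1, 3] (lin e b3)) v 1 w = T1 (e 0 * e 1) (e 1 * e 2) (val v) A B C ∧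
    th (Kjet ![0, 1, 3] (lin e b3)) v 2 w = T2 (e 0 * e 2) (e 1 * e 2) (val v) A B C := by
  obtain ⟨⟨a1, a2, a3, a4, a5, a6, a7, a8, a9⟩, ⟨b1, b2, b3', b4, b5, b6, b7, b8, b9⟩,
    ⟨c1, c2, c3, c4, c5, c6, c7, c8, c9⟩⟩ := lin_vals e he
  obtain ⟨⟨v1, v2⟩, ⟨v3, v4⟩, ⟨v5, v6⟩, ⟨v7, v8⟩⟩ := val_cons hv h0 h1 h2
  have v8' : (B : ℝ) * v (1 :: w.erase 1) = (B : ℝ) * val v A B C := by
    by_cases hB : B = 0
    · rw [hB]; push_cast; ring
    · rw [v8 hB]
  have d0 : (![0, 1, 3] : Fin 3 → ℝ) 0 = 0 := rfl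
  have d1 : (![0, 1, 3] : Fin 3 → ℝ) 1 = 1 := rfl
  have d2 : (![0, 1, 3] : Fin 3 → ℝ) 2 = 3 := rfl
  refine ⟨?_, ?_, ?_⟩
  · rw [th_eq _ _ hv, d0]
    simp only [Fin.sum_univ_three, a1, a2, a3, a4, a5, a6, a7, a8, a9, h0, h1, h2, v3, T0]
    ring
  · rw [th_eq _ _ hv, d1]
    simp only [Fin.sum_univ_three, b1, b2, b3', b4, b5, b6, b7, b8, b9, h0, h1, h2, v1, v3, v4,
      v5, v6, T1]
    ring
  · rw [th_eq _ _ hv, d2]
    simp only [Fin.sum_univ_three, c1, c2, c3, c4, c5, c6, c7, c8, c9, h0, h1, h2, v2, v7, T2]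
    linear_combination (e 1 * e 2) * v8'

theorem eqs (e : Fin 3 → ℝ) (he : e 1 * e 1 = 1) {v : Jet (Fin 3) ℝ} (hv : Sym v)
    (hr : Rows 6 (Kjet ![0, 1, 3] (lin e b3)) v) :
    Eqs (e 0 * e 1) (e 0 * e 2) (e 1 * e 2) (val v) := by
  have hl : ∀ a b c : ℕ, a + b + c ≤ 4 → (wd a b c).length + 2 ≤ 6 := by
    intro a b c h
    simp only [wd, List.length_append, List.length_replicate]
    omega
  have k0 : ∀ a b c : ℕ, (0 :: wd a b c).count 0 = a + 1 ∧ (0 :: wd a b c).count 1 = b ∧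
      (0 :: wd a b c).count 2 = c := by
    intro a b c
    simp [List.count_cons, count_wd0, count_wd1, count_wd2]
  have k1 : ∀ a b c : ℕ, (1 :: wd a b c).count 0 = a ∧ (1 :: wd a b c).count 1 = b + 1 ∧
      (1 :: wd a b c).count 2 = c := by
    intro a b c
    simp [List.count_cons, count_wd0, count_wd1, count_wd2]
  have k2 : ∀ a b c : ℕ, (2 :: wd a b c).count 0 = a ∧ (2 :: wd a b c).count 1 = b ∧
      (2 :: wd a b c).count 2 = c + 1 := by
    intro a b c
    simp [List.count_cons, count_wd0, count_wd1, count_wd2]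
  refine ⟨fun a b c h => ?_, fun a b c h => ?_, fun a b c h => ?_⟩
  · have := hr _ (hl a b c h) 0 1
    unfold om at this
    obtain ⟨x0, x1, x2⟩ := k0 a b c
    obtain ⟨y0, y1, y2⟩ := k1 a b c
    rw [(th_vals e he hv x0 x1 x2).2.1, (th_vals e he hv y0 y1 y2).1] at this
    exact this
  · have := hr _ (hl a b c h) 0 2
    unfold om at this
    obtain ⟨x0, x1, x2⟩ := k0 a b c
    obtain ⟨y0, y1, y2⟩ := k2 a b c
    rw [(th_vals e he hv x0 x1 x2).2.2, (th_vals e he hv y0 y1 y2).1] at this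
    exact this
  · have := hr _ (hl a b c h) 1 2
    unfold om at this
    obtain ⟨x0, x1, x2⟩ := k1 a b c
    obtain ⟨y0, y1, y2⟩ := k2 a b c
    rw [(th_vals e he hv x0 x1 x2).2.2, (th_vals e he hv y0 y1 y2).2.1] at this
    exact this

/-- N3: three coordinates, order 6. -/
theorem t (hP : S_PUR) : S_N3 := by
  intro e he
  have s0 : e 0 * e 0 = 1 := by rw [← sq]; exact he 0
  have s1 : e 1 * e 1 = 1 := by rw [← sq]; exact he 1
  have s2 : e 2 * e 2 = 1 := by rw [← sq]; exact he 2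
  have inj : Function.Injective (![0, 1, 3] : Fin 3 → ℝ) := by
    intro i j h
    fin_cases i <;> fin_cases j <;> simp at h ⊢
  refine hP (Fin 3) 6 _ ![0, 1, 3] inj (fun s j => rfl) ?_
  rintro v ⟨hv, -, hr⟩ i k h1 h6
  have H := eqs e s1 hv hr
  have Z : Zer (val v) := by
    have hp : e 0 * e 1 = 1 ∨ e 0 * e 1 = -1 := by
      apply mul_self_eq_one_iff.mp
      calc e 0 * e 1 * (e 0 * e 1) = (e 0 * e 0) * (e 1 * e 1) := by ring
        _ = 1 := by rw [s0, s1, one_mul]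
    have hq : e 0 * e 2 = 1 ∨ e 0 * e 2 = -1 := by
      apply mul_self_eq_one_iff.mp
      calc e 0 * e 2 * (e 0 * e 2) = (e 0 * e 0) * (e 2 * e 2) := by ring
        _ = 1 := by rw [s0, s2, one_mul]
    have hr : e 1 * e 2 = (e 0 * e 1) * (e 0 * e 2) := by
      calc e 1 * e 2 = 1 * (e 1 * e 2) := by ring
        _ = (e 0 * e 0) * (e 1 * e 2) := by rw [s0]
        _ = _ := by ring
    rcases hp with hp | hp <;> rcases hq with hq | hq <;> rw [hr, hp, hq] at H
    · rw [one_mul] at H; exact caseA H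
    · rw [one_mul] at H; exact caseB H
    · rw [mul_one] at H; exact caseC H
    · rw [neg_one_mul, neg_neg] at H; exact caseD H
  obtain ⟨z100, z200, z300, z400, z500, z010, z020, z030, z040, z050, z001, z002, z003, z004,
    z005⟩ := Z
  have w0 : ∀ k : ℕ, List.replicate k (0 : Fin 3) = wd k 0 0 := by intro k; simp [wd]
  have w1 : ∀ k : ℕ, List.replicate k (1 : Fin 3) = wd 0 k 0 := by intro k; simp [wd]
  have w2 : ∀ k : ℕ, List.replicate k (2 : Fin 3) = wd 0 0 k := by intro k; simp [wd]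
  match i with
  | 0 =>
    rw [w0]
    interval_cases k
    exacts [z100, z200, z300, z400, z500]
  | 1 =>
    rw [w1]
    interval_cases k
    exacts [z010, z020, z030, z040, z050]
  | 2 =>
    rw [w2]
    interval_cases k
    exacts [z001, z002, z003, z004, z005]

end Pool.Agent.N768.KT.N3
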